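import Pool.Agent.U527.Srf.Graph

set_option autoImplicit false
set_option linter.unusedSectionVars false

/-!
The maximal function over the tubes meeting a set: the upper estimate and its sharpness.
-/

open MeasureTheory Set Filter Topology ENNReal NNReal Metric

namespace Pool.Agent.U527.Srf

open Pool.Agent.H742R2.Kk Pool.Agent.W767.Kc

/-- Supremum of the averages of `|f|` over the `δ`-tubes with direction `e` whose axis line passes at
distance at most `δ` from a point of `S`. -/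
noncomputable def sMax {n : ℕ} (δ : ℝ) (S : Set (E n)) (f : E n → ℝ) (e : E n) : ℝ≥0∞ :=
  ⨆ (a : E n) (x : E n) (_ : x ∈ S) (_ : ‖(a - x) - (inner ℝ (a - x) e : ℝ) • e‖ ≤ δ),
    (volume (tube δ e a))⁻¹ * ∫⁻ y in tube δ e a, ‖f y‖ₑ

/-- covered by a foliation -/
def Cov {n : ℕ} (k N : ℕ) (L : ℝ) (S : Set (E n)) : Prop :=
  ∃ (U : Set (Fin k → ℝ)) (Γ : (Fin k → ℝ) → ℝ → E n), Fol N L U Γ ∧
    ∀ x ∈ S, ∃ u ∈ U, ∃ t, Γ u t = x

theorem Fol.mono {n k N : ℕ} {L L' : ℝ} (h : L ≤ L') {U : Set (Fin k → ℝ)}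
    {Γ : (Fin k → ℝ) → ℝ → E n} (hΓ : Fol N L U Γ) : Fol N L' U Γ :=
  ⟨hΓ.cont, hΓ.order, fun u hu u' hu' t => (hΓ.lip u hu u' hu' t).trans
    (mul_le_mul_of_nonneg_right h (norm_nonneg _)), fun u hu u' hu' t t' =>
    (hΓ.sep u hu u' hu' t t').trans (mul_le_mul_of_nonneg_right h (norm_nonneg _))⟩

theorem volume_tube_ne_zero {d : ℕ} {δ : ℝ} (hδ : 0 < δ) {e a : E (d + 1)} (he : ‖e‖ = 1) :
    volume (tube δ e a) ≠ 0 := by
  obtain ⟨c, hc, h⟩ := volume_tube d
  have h1 : ENNReal.ofReal (c * δ ^ d) ≤ volume (tube δ e a) := h δ e a hδ he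
  intro h0
  rw [h0, nonpos_iff_eq_zero, ENNReal.ofReal_eq_zero] at h1
  have : 0 < c * δ ^ d := by positivity
  linarith

/-- Upper bound for the volume of a tube. -/
theorem volume_tube_up {n : ℕ} {δ : ℝ} (hδ : 0 < δ) (hδ1 : δ ≤ 1) {e a : E n} (he : ‖e‖ = 1) :
    volume (tube δ e a) ≤ ENNReal.ofReal (3 * (2 * δ)⁻¹) * vB n (3 * δ) := by
  have h := tube_le hδ hδ1 (F := fun _ => 1) measurable_const (e := e) (a := a) (p := a) he
    (by simp [hδ.le])
  rw [setLIntegral_one] at h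
  have h1 : ∀ x : E n, Av (3 * δ) (fun _ => 1) x = vB n (3 * δ) := by
    intro x
    rw [Av, setLIntegral_one, Measure.addHaar_closedBall_center]
    rfl
  simp_rw [h1] at h
  rw [setLIntegral_const, Real.volume_Icc] at h
  have e1 : (inner ℝ (a - a) e + 3 / 2 - (inner ℝ (a - a) e - 3 / 2) : ℝ) = 3 := by ring
  rw [e1] at h
  calc volume (tube δ e a) = ENNReal.ofReal ((2 * δ)⁻¹) * (ENNReal.ofReal (2 * δ) *
        volume (tube δ e a)) := by
        rw [← mul_assoc, ← ENNReal.ofReal_mul (by positivity), inv_mul_cancel₀ (by positivity),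
          ENNReal.ofReal_one, one_mul]
    _ ≤ ENNReal.ofReal ((2 * δ)⁻¹) * (vB n (3 * δ) * ENNReal.ofReal 3) := by gcongr
    _ = _ := by
        rw [ENNReal.ofReal_mul (by norm_num)]
        ring

theorem upper_meas (d k q : ℕ) (hq : 3 ≤ q) (hd : d + 1 = q + k) (L : ℝ) :
    ∃ C : ℝ, 0 < C ∧ ∀ (N : ℕ) (S : Set (E (d + 1))) (δ : ℝ) (f : E (d + 1) → ℝ) (p : ℝ),
      Cov k N L S → 0 < δ → δ < 1 → Measurable f → (q:ℝ) ≤ p →
      ∫⁻ e : sphere (0 : E (d + 1)) 1, sMax δ S f e ^ p ∂(volume : Measure (E (d + 1))).toSphere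
        ≤ ENNReal.ofReal (C * (N + 1) * (1 + Real.log (N + 1)) ^ 2
            * (1 + Real.log (1 / δ)) ^ (q + 2) * (1 / δ) ^ k) * ∫⁻ y, ‖f y‖ₑ ^ p := by
  obtain ⟨C, hC, hmain⟩ := main d k q hq hd (max L 1) (le_max_right _ _)
  refine ⟨C, hC, ?_⟩
  rintro N S δ f p ⟨U, Γ, hΓ, hS⟩ hδ hδ1 hf hp
  have hq0 : (0:ℝ) < q := by
    have : (3:ℝ) ≤ q := by exact_mod_cast hq
    linarith
  have hp0 : 0 < p := hq0.trans_le hp
  set F : E (d + 1) → ℝ≥0∞ := fun y => ‖f y‖ₑ ^ (p / q) with hF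
  have hFm : Measurable F := hf.enorm.pow_const _
  obtain ⟨G, hGm, hGle, hGint⟩ := hmain N U Γ (hΓ.mono (le_max_left _ _)) δ hδ hδ1 F hFm
  have hFq : ∀ y, F y ^ q = ‖f y‖ₑ ^ p := by
    intro y
    rw [hF, ← ENNReal.rpow_natCast, ← ENNReal.rpow_mul]
    congr 1
    field_simp
  simp_rw [hFq] at hGint
  refine le_trans (lintegral_mono ?_) hGint
  intro e
  have he : ‖(e : E (d + 1))‖ = 1 := by simp
  have hle : sMax δ S f e ≤ G e ^ (1 / p) := by
    unfold sMax
    refine iSup_le fun a => iSup_le fun x => iSup_le fun hx => iSup_le fun hax => ?_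
    obtain ⟨u, hu, t, rfl⟩ := hS x hx
    have h1 := hGle e a u hu t he hax
    have h2 := avg_pow (tube δ (e : E (d + 1)) a) hf.enorm (r := p / q)
      (by rw [le_div_iff₀ hq0]; linarith) (volume_tube_ne_zero hδ he)
      ((volume_tube_up hδ hδ1.le he).trans_lt
        (ENNReal.mul_lt_top ENNReal.ofReal_lt_top (vB_ne_top _ _).lt_top)).ne
    rw [one_div, ENNReal.le_rpow_inv_iff hp0]
    calc ((volume (tube δ (e : E (d + 1)) a))⁻¹ * ∫⁻ y in tube δ (e : E (d + 1)) a, ‖f y‖ₑ) ^ p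
        = (((volume (tube δ (e : E (d + 1)) a))⁻¹ *
            ∫⁻ y in tube δ (e : E (d + 1)) a, ‖f y‖ₑ) ^ (p / q)) ^ q := by
          rw [← ENNReal.rpow_natCast, ← ENNReal.rpow_mul]
          congr 1
          field_simp
      _ ≤ _ := pow_le_pow_left' h2 q
      _ ≤ G e := h1
  calc sMax δ S f e ^ p ≤ (G e ^ (1 / p)) ^ p := ENNReal.rpow_le_rpow hle hp0.le
    _ = G e := by
      rw [← ENNReal.rpow_mul, one_div, inv_mul_cancel₀ hp0.ne', ENNReal.rpow_one]

theorem upper (d k q : ℕ) (hq : 3 ≤ q) (hd : d + 1 = q + k) (L : ℝ) :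
    ∃ C : ℝ, 0 < C ∧ ∀ (N : ℕ) (S : Set (E (d + 1))) (δ : ℝ) (f : E (d + 1) → ℝ) (p : ℝ),
      Cov k N L S → 0 < δ → δ < 1 → AEMeasurable f volume → (q:ℝ) ≤ p →
      ∫⁻ e : sphere (0 : E (d + 1)) 1, sMax δ S f e ^ p ∂(volume : Measure (E (d + 1))).toSphere
        ≤ ENNReal.ofReal (C * (N + 1) * (1 + Real.log (N + 1)) ^ 2
            * (1 + Real.log (1 / δ)) ^ (q + 2) * (1 / δ) ^ k) * ∫⁻ y, ‖f y‖ₑ ^ p := by
  obtain ⟨C, hC, hmain⟩ := upper_meas d k q hq hd L
  refine ⟨C, hC, ?_⟩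
  intro N S δ f p hS hδ hδ1 hf hp
  have h1 := hmain N S δ (hf.mk f) p hS hδ hδ1 hf.measurable_mk hp
  have h2 : ∀ e, sMax δ S f e = sMax δ S (hf.mk f) e := by
    intro e
    unfold sMax
    refine iSup_congr fun a => iSup_congr fun x => iSup_congr fun _ => iSup_congr fun _ => ?_
    congr 1
    apply lintegral_congr_ae
    filter_upwards [ae_restrict_of_ae hf.ae_eq_mk] with y hy
    rw [hy]
  have h3 : ∫⁻ y, ‖f y‖ₑ ^ p = ∫⁻ y, ‖hf.mk f y‖ₑ ^ p := by
    apply lintegral_congr_ae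
    filter_upwards [hf.ae_eq_mk] with y hy
    rw [hy]
  simp_rw [h2]
  rw [h3]
  exact h1

/-- Balls show that the power of the loss cannot be improved. -/
theorem lower (d : ℕ) (p : ℝ) (hp : 0 < p) : ∃ c : ℝ, 0 < c ∧
    ∀ (S : Set (E (d + 1))), S.Nonempty → ∀ δ : ℝ, 0 < δ → δ < 1 →
    ∃ f : E (d + 1) → ℝ, Measurable f ∧ (∫⁻ y, ‖f y‖ₑ ^ p) ≠ 0 ∧ (∫⁻ y, ‖f y‖ₑ ^ p) ≠ ∞ ∧
      ENNReal.ofReal (c * (1 / δ) ^ ((d:ℝ) + 1 - p)) * ∫⁻ y, ‖f y‖ₑ ^ p
        ≤ ∫⁻ e : sphere (0 : E (d + 1)) 1, sMax δ S f e ^ p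
          ∂(volume : Measure (E (d + 1))).toSphere := by
  set n := d + 1 with hn
  set c0 : ℝ := 2 / 3 * (1 / 6) ^ n with hc0
  have hc0p : 0 < c0 := by positivity
  refine ⟨c0 ^ p * 2 ^ n, by positivity, ?_⟩
  rintro S ⟨x, hx⟩ δ hδ hδ1
  set v1 := vB n 1 with hv1
  have hv0 : v1 ≠ 0 := vB_ne_zero n one_pos
  have hvt : v1 ≠ ∞ := vB_ne_top n 1
  set f : E n → ℝ := (closedBall x (δ / 2)).indicator (fun _ => 1) with hf
  have hfm : Measurable f := measurable_const.indicator isClosed_closedBall.measurableSet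
  have hfe : ∀ y, ‖f y‖ₑ = (closedBall x (δ / 2)).indicator (fun _ => (1:ℝ≥0∞)) y := by
    intro y
    by_cases hy : y ∈ closedBall x (δ / 2)
    · simp [hf, indicator_of_mem hy]
    · simp [hf, indicator_of_notMem hy]
  have hint : ∫⁻ y, ‖f y‖ₑ ^ p = ENNReal.ofReal ((δ / 2) ^ n) * v1 := by
    have e1 : ∀ y, ‖f y‖ₑ ^ p = (closedBall x (δ / 2)).indicator (fun _ => (1:ℝ≥0∞)) y := by
      intro y
      rw [hfe]
      by_cases hy : y ∈ closedBall x (δ / 2)
      · rw [indicator_of_mem hy, ENNReal.one_rpow]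
      · rw [indicator_of_notMem hy, ENNReal.zero_rpow_of_pos hp]
    simp_rw [e1]
    rw [lintegral_indicator isClosed_closedBall.measurableSet, setLIntegral_one,
      Measure.addHaar_closedBall_center]
    exact vB_eq n (by positivity)
  refine ⟨f, hfm, ?_, ?_, ?_⟩
  · rw [hint]
    refine mul_ne_zero ?_ hv0
    rw [Ne, ENNReal.ofReal_eq_zero, not_le]
    positivity
  · rw [hint]
    exact ENNReal.mul_ne_top ENNReal.ofReal_ne_top hvt
  · have hpt : ∀ e : sphere (0 : E n) 1, ENNReal.ofReal (c0 * δ) ≤ sMax δ S f e := by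
      intro e
      have he : ‖(e : E n)‖ = 1 := by simp
      have h1 : (volume (tube δ (e : E n) x))⁻¹ * ∫⁻ y in tube δ (e : E n) x, ‖f y‖ₑ
          ≤ sMax δ S f e := by
        unfold sMax
        refine le_trans ?_ (le_iSup _ x)
        refine le_trans ?_ (le_iSup _ x)
        refine le_trans ?_ (le_iSup _ hx)
        exact le_iSup_of_le (by simp [hδ.le]) le_rfl
      refine le_trans ?_ h1
      have hsub : closedBall x (δ / 2) ⊆ tube δ (e : E n) x := by
        intro y hy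
        rw [mem_closedBall, dist_eq_norm] at hy
        have h2 : |inner ℝ (y - x) (e : E n)| ≤ δ / 2 := by
          refine (abs_real_inner_le_norm _ _).trans ?_
          rw [he, mul_one]
          exact hy
        refine ⟨by linarith, ?_⟩
        refine (norm_sub_le _ _).trans ?_
        rw [norm_smul, he, mul_one, Real.norm_eq_abs]
        linarith
      have h3 : ∫⁻ y in tube δ (e : E n) x, ‖f y‖ₑ = ENNReal.ofReal ((δ / 2) ^ n) * v1 := by
        simp_rw [hfe]
        rw [lintegral_indicator isClosed_closedBall.measurableSet,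
          Measure.restrict_restrict isClosed_closedBall.measurableSet, inter_eq_left.2 hsub,
          setLIntegral_one, Measure.addHaar_closedBall_center]
        exact vB_eq n (by positivity)
      rw [h3]
      have h4 := volume_tube_up hδ hδ1.le he (a := x)
      rw [vB_eq n (by positivity : (0:ℝ) ≤ 3 * δ), ← mul_assoc,
        ← ENNReal.ofReal_mul (by positivity)] at h4
      calc ENNReal.ofReal (c0 * δ)
          = (ENNReal.ofReal (3 * (2 * δ)⁻¹ * (3 * δ) ^ n) * v1)⁻¹ *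
            (ENNReal.ofReal ((δ / 2) ^ n) * v1) := by
            rw [ENNReal.mul_inv (Or.inl (by simp; positivity)) (Or.inl ENNReal.ofReal_ne_top),
              ← ENNReal.ofReal_inv_of_pos (by positivity)]
            have e1 : ENNReal.ofReal ((3 * (2 * δ)⁻¹ * (3 * δ) ^ n)⁻¹) * v1⁻¹ *
                (ENNReal.ofReal ((δ / 2) ^ n) * v1)
                = ENNReal.ofReal ((3 * (2 * δ)⁻¹ * (3 * δ) ^ n)⁻¹) *
                  ENNReal.ofReal ((δ / 2) ^ n) * (v1⁻¹ * v1) := by ring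
            rw [e1, ENNReal.inv_mul_cancel hv0 hvt, mul_one, ← ENNReal.ofReal_mul (by positivity)]
            congr 1
            rw [hc0, mul_pow, div_pow, div_pow, one_pow]
            have : (6:ℝ) ^ n = 2 ^ n * 3 ^ n := by rw [← mul_pow]; norm_num
            rw [this]
            field_simp
        _ ≤ _ := by gcongr
    have hσ : v1 ≤ (volume : Measure (E n)).toSphere univ := by
      rw [Measure.toSphere_apply_univ]
      have h5 : volume (ball (0 : E n) 1) = v1 := (Measure.addHaar_closedBall_eq_addHaar_ball _ _ _).symm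
      rw [h5]
      have hfr : Module.finrank ℝ (E n) = d + 1 := by simp [hn]
      rw [hfr]
      calc v1 = 1 * v1 := (one_mul _).symm
        _ ≤ _ := by
          gcongr
          push_cast
          exact le_add_self
    rw [hint]
    calc ENNReal.ofReal (c0 ^ p * 2 ^ n * (1 / δ) ^ ((d:ℝ) + 1 - p)) *
          (ENNReal.ofReal ((δ / 2) ^ n) * v1)
        = ENNReal.ofReal ((c0 * δ) ^ p) * v1 := by
          rw [← mul_assoc, ← ENNReal.ofReal_mul (by positivity)]
          congr 2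
          rw [one_div, Real.inv_rpow hδ.le, ← Real.rpow_neg hδ.le, div_pow, Real.mul_rpow hc0p.le hδ.le]
          have e2 : (δ:ℝ) ^ n = δ ^ ((d:ℝ) + 1) := by
            rw [← Real.rpow_natCast]; push_cast [hn]; rfl
          rw [e2]
          have e3 : δ ^ (-((d:ℝ) + 1 - p)) * δ ^ ((d:ℝ) + 1) = δ ^ p := by
            rw [← Real.rpow_add hδ]; congr 1; ring
          calc c0 ^ p * 2 ^ n * δ ^ (-((d:ℝ) + 1 - p)) * (δ ^ ((d:ℝ) + 1) / 2 ^ n)
              = c0 ^ p * (δ ^ (-((d:ℝ) + 1 - p)) * δ ^ ((d:ℝ) + 1)) := by field_simp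
            _ = _ := by rw [e3]
      _ ≤ ENNReal.ofReal ((c0 * δ) ^ p) * (volume : Measure (E n)).toSphere univ := by gcongr
      _ = ∫⁻ e : sphere (0 : E n) 1, ENNReal.ofReal ((c0 * δ) ^ p)
          ∂(volume : Measure (E n)).toSphere := by rw [lintegral_const]
      _ ≤ _ := by
          apply lintegral_mono
          intro e
          simp only
          rw [← ENNReal.ofReal_rpow_of_pos (by positivity)]
          exact ENNReal.rpow_le_rpow (hpt e) hp.le

end Pool.Agent.U527.Srf
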