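import Pool.Agent.U527.Srf.Loc

set_option autoImplicit false
set_option linter.unusedSectionVars false

/-!
Tubes meeting a set which is foliated by curves of finite order: assembly.
-/

open MeasureTheory Set Filter Topology ENNReal NNReal Metric

namespace Pool.Agent.U527.Srf

open Pool.Agent.H742R2.Kk Pool.Agent.W767.Kc

/-- Constant of the core part. -/
noncomputable def cC (n q : ℕ) : ℝ≥0∞ :=
  2 ^ q * (ENNReal.ofReal ((4 / 3) ^ n)) ^ q * (vB n 1)⁻¹

theorem cC_ne_top (n q : ℕ) : cC n q ≠ ∞ :=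
  ENNReal.mul_ne_top (ENNReal.mul_ne_top (ENNReal.pow_ne_top (by norm_num))
    (ENNReal.pow_ne_top ENNReal.ofReal_ne_top)) (ENNReal.inv_ne_top.2 (vB_ne_zero n one_pos))

theorem core_part {n q : ℕ} (hq : 2 ≤ q) {δ : ℝ} (hδ : 0 < δ) {F : E n → ℝ≥0∞}
    (hF : Measurable F) {p e : E n} (he : ‖e‖ = 1) :
    (∫⁻ s in Icc (-δ) δ, Phi (3 * δ) F (p + s • e)) ^ q
      ≤ cC n q * ENNReal.ofReal (δ ^ q * (δ ^ n)⁻¹) * ∫⁻ y, F y ^ q := by
  set K := ENNReal.ofReal ((4 / 3) ^ n) with hK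
  have h1 : ∫⁻ s in Icc (-δ) δ, Phi (3 * δ) F (p + s • e)
      ≤ ENNReal.ofReal (2 * δ) * (K * Phi (4 * δ) F p) := by
    calc ∫⁻ s in Icc (-δ) δ, Phi (3 * δ) F (p + s • e)
        ≤ ∫⁻ s in Icc (-δ) δ, K * Phi (4 * δ) F p := by
          apply setLIntegral_mono' measurableSet_Icc
          intro s hs
          apply Phi_le_Phi hδ
          rw [add_sub_cancel_left, norm_smul, he, mul_one, Real.norm_eq_abs]
          exact abs_le.2 hs
      _ = _ := by
          rw [setLIntegral_const, Real.volume_Icc, mul_comm]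
          congr 2
          ring
  calc (∫⁻ s in Icc (-δ) δ, Phi (3 * δ) F (p + s • e)) ^ q
      ≤ (ENNReal.ofReal (2 * δ) * (K * Phi (4 * δ) F p)) ^ q := pow_le_pow_left' h1 q
    _ = ENNReal.ofReal ((2 * δ) ^ q) * (K ^ q * Phi (4 * δ) F p ^ q) := by
        rw [mul_pow, mul_pow, ENNReal.ofReal_pow (by positivity)]
    _ ≤ ENNReal.ofReal ((2 * δ) ^ q) * (K ^ q * ((vB n (4 * δ))⁻¹ * ∫⁻ y, F y ^ q)) := by
        gcongr
        exact Phi_sup (by positivity) hF hq p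
    _ ≤ ENNReal.ofReal ((2 * δ) ^ q) * (K ^ q * ((vB n δ)⁻¹ * ∫⁻ y, F y ^ q)) := by
        gcongr
        unfold vB
        apply measure_mono
        apply closedBall_subset_closedBall
        linarith
    _ = _ := by
        rw [vB_eq n hδ.le,
          ENNReal.mul_inv (Or.inl (by simp; positivity)) (Or.inl ENNReal.ofReal_ne_top),
          ← ENNReal.ofReal_inv_of_pos (by positivity), cC, ← hK, mul_pow,
          ENNReal.ofReal_mul (by positivity), ENNReal.ofReal_mul (by positivity)]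
        have e2 : ENNReal.ofReal ((2:ℝ) ^ q) = 2 ^ q := by
          rw [ENNReal.ofReal_pow (by norm_num)]; simp
        rw [e2]
        ring

/-- Pointwise estimate along one line. -/
theorem line_est {n q : ℕ} (hq : 3 ≤ q) {δ : ℝ} (hδ : 0 < δ) {F : E n → ℝ≥0∞}
    (hF : Measurable F) {p e : E n} (he : ‖e‖ = 1) (s0 : ℝ) (J0 : ℕ) (M : ℕ → ℝ≥0∞)
    (hM : ∀ j : ℕ, (∫⁻ s in shell (2 ^ j * δ), Phi (3 * δ) F (p + s • e) ^ ((q:ℝ) / 2)) ^ 2
      ≤ M j) :
    (∫⁻ s in Icc (s0 - 3 / 2) (s0 + 3 / 2), Phi (3 * δ) F (p + s • e)) ^ q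
      ≤ 3 ^ q * (cC n q * ENNReal.ofReal (δ ^ q * (δ ^ n)⁻¹) * (∫⁻ y, F y ^ q)
        + (J0:ℝ≥0∞) ^ (q - 1) * ∑ j ∈ Finset.range J0,
            ENNReal.ofReal ((2 * (2 ^ j * δ)) ^ (q - 2)) * M j
        + 3 ^ (q - 2) * (4 * ∑' i : ℕ, ((3 / 4 : ℝ≥0∞) ^ i)⁻¹ * M (J0 + i))) := by
  set g : ℝ → ℝ≥0∞ := fun s => Phi (3 * δ) F (p + s • e) with hg
  have hgm : Measurable g := (measurable_Phi (3 * δ) hF).comp (by fun_prop)
  have hgm2 : Measurable (fun s => g s ^ ((q:ℝ) / 2)) := hgm.pow_const _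
  set I := Icc (s0 - 3 / 2) (s0 + 3 / 2) with hI
  set far : Set ℝ := ⋃ i : ℕ, shell (2 ^ (J0 + i) * δ) with hfar
  have hfarm : MeasurableSet far := MeasurableSet.iUnion (fun i => measurableSet_shell _)
  have hpos : ∀ j : ℕ, 0 < 2 ^ j * δ := fun j => by positivity
  have hcov : I ⊆ (Icc (-δ) δ ∪ ⋃ j ∈ Finset.range J0, shell (2 ^ j * δ)) ∪ (I ∩ far) := by
    intro s hs
    rcases cover_shell hδ J0 s with h | ⟨j, hj, h⟩ | ⟨i, h⟩
    · exact Or.inl (Or.inl h)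
    · refine Or.inl (Or.inr ?_)
      simp only [mem_iUnion]
      exact ⟨j, hj, h⟩
    · exact Or.inr ⟨hs, mem_iUnion.2 ⟨i, h⟩⟩
  have hsplit : ∫⁻ s in I, g s ≤ (∫⁻ s in Icc (-δ) δ, g s)
      + (∑ j ∈ Finset.range J0, ∫⁻ s in shell (2 ^ j * δ), g s) + ∫⁻ s in I ∩ far, g s := by
    calc ∫⁻ s in I, g s ≤ ∫⁻ s in (Icc (-δ) δ ∪ ⋃ j ∈ Finset.range J0, shell (2 ^ j * δ))
          ∪ (I ∩ far), g s := lintegral_mono_set hcov
      _ ≤ (∫⁻ s in (Icc (-δ) δ ∪ ⋃ j ∈ Finset.range J0, shell (2 ^ j * δ)), g s)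
          + ∫⁻ s in I ∩ far, g s := lintegral_union_le _ _ _
      _ ≤ ((∫⁻ s in Icc (-δ) δ, g s) + ∫⁻ s in ⋃ j ∈ Finset.range J0, shell (2 ^ j * δ), g s)
          + ∫⁻ s in I ∩ far, g s := by
          gcongr
          exact lintegral_union_le _ _ _
      _ ≤ _ := by
          gcongr
          have h1 : ∀ T : Finset ℕ, ∫⁻ s in ⋃ j ∈ T, shell (2 ^ j * δ), g s
              ≤ ∑ j ∈ T, ∫⁻ s in shell (2 ^ j * δ), g s := by
            classical
            intro T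
            induction T using Finset.induction_on with
            | empty => simp
            | insert a T ha ih =>
              rw [Finset.set_biUnion_insert, Finset.sum_insert ha]
              exact (lintegral_union_le _ _ _).trans (add_le_add le_rfl ih)
          exact h1 _
  have hA := core_part (by omega : 2 ≤ q) hδ hF (p := p) he
  have hB : (∑ j ∈ Finset.range J0, ∫⁻ s in shell (2 ^ j * δ), g s) ^ q
      ≤ (J0:ℝ≥0∞) ^ (q - 1) * ∑ j ∈ Finset.range J0,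
            ENNReal.ofReal ((2 * (2 ^ j * δ)) ^ (q - 2)) * M j := by
    refine (sum_pow_le _ _ (by omega)).trans ?_
    rw [Finset.card_range]
    gcongr with j hj
    refine (holder_half _ hgm.aemeasurable hq).trans ?_
    rw [Measure.restrict_apply_univ]
    have h1 : volume (shell (2 ^ j * δ)) ^ (q - 2)
        ≤ ENNReal.ofReal ((2 * (2 ^ j * δ)) ^ (q - 2)) := by
      rw [ENNReal.ofReal_pow (by positivity)]
      exact pow_le_pow_left' (volume_shell_le _ (hpos j)) _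
    exact mul_le_mul' h1 (hM j)
  have hC : (∫⁻ s in I ∩ far, g s) ^ q
      ≤ 3 ^ (q - 2) * (4 * ∑' i : ℕ, ((3 / 4 : ℝ≥0∞) ^ i)⁻¹ * M (J0 + i)) := by
    refine (holder_half _ hgm.aemeasurable hq).trans ?_
    rw [Measure.restrict_apply_univ]
    have h1 : volume (I ∩ far) ^ (q - 2) ≤ 3 ^ (q - 2) := by
      apply pow_le_pow_left'
      calc volume (I ∩ far) ≤ volume I := measure_mono inter_subset_left
        _ = 3 := by
          rw [hI, Real.volume_Icc]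
          have : s0 + 3 / 2 - (s0 - 3 / 2) = 3 := by ring
          rw [this]
          simp
    have h2 : (∫⁻ s in I ∩ far, g s ^ ((q:ℝ) / 2)) ^ 2
        ≤ 4 * ∑' i : ℕ, ((3 / 4 : ℝ≥0∞) ^ i)⁻¹ * M (J0 + i) := by
      have h3 : ∫⁻ s in I ∩ far, g s ^ ((q:ℝ) / 2)
          ≤ ∑' i : ℕ, ∫⁻ s in shell (2 ^ (J0 + i) * δ), g s ^ ((q:ℝ) / 2) :=
        (lintegral_mono_set inter_subset_right).trans (lintegral_iUnion_le _ _)
      refine (pow_le_pow_left' h3 2).trans ((weighted_cs _).trans ?_)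
      gcongr with i
      exact hM (J0 + i)
    exact mul_le_mul' h1 h2
  calc (∫⁻ s in I, g s) ^ q
      ≤ ((∫⁻ s in Icc (-δ) δ, g s)
      + (∑ j ∈ Finset.range J0, ∫⁻ s in shell (2 ^ j * δ), g s) + ∫⁻ s in I ∩ far, g s) ^ q :=
        pow_le_pow_left' hsplit q
    _ ≤ 3 ^ q * ((∫⁻ s in Icc (-δ) δ, g s) ^ q
      + (∑ j ∈ Finset.range J0, ∫⁻ s in shell (2 ^ j * δ), g s) ^ q
      + (∫⁻ s in I ∩ far, g s) ^ q) := add3_pow_le _ _ _ _
    _ ≤ _ := mul_le_mul_right (add_le_add (add_le_add hA hB) hC) _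

/-- The estimate with unspecified integers `J'` and `J0`. -/
theorem main_enn (d k q : ℕ) (hq : 3 ≤ q) (hd : d + 1 = q + k) (L : ℝ) (hL : 1 ≤ L) :
    ∃ C : ℝ≥0∞, C ≠ ∞ ∧
    ∀ (N : ℕ) (U : Set (Fin k → ℝ)) (Γ : (Fin k → ℝ) → ℝ → E (d + 1)), Fol N L U Γ →
    ∀ δ : ℝ, 0 < δ → δ ≤ 1 → ∀ F : E (d + 1) → ℝ≥0∞, Measurable F →
    ∀ J' J0 : ℕ, 1 + ((d:ℝ) + 1) * N ≤ 2 ^ J' → 1 ≤ 2 ^ J0 * δ →
    ∃ G : E (d + 1) → ℝ≥0∞, Measurable G ∧
      (∀ e a : E (d + 1), ∀ u ∈ U, ∀ t : ℝ, ‖e‖ = 1 →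
        ‖(a - Γ u t) - (inner ℝ (a - Γ u t) e : ℝ) • e‖ ≤ δ →
        ((volume (tube δ e a))⁻¹ * ∫⁻ y in tube δ e a, F y) ^ q ≤ G e) ∧
      ∫⁻ x in closedBall (0 : E (d + 1)) 1, G (‖x‖⁻¹ • x)
        ≤ C * (((J0:ℝ≥0∞) + 1) ^ q * ((J':ℝ≥0∞) + J0 + 1) ^ 2 * ((N:ℝ≥0∞) + 1))
          * (ENNReal.ofReal ((δ ^ k)⁻¹) * ∫⁻ y, F y ^ q) := by
  obtain ⟨C1, hC1, hT⟩ := tube_avg d
  obtain ⟨C2, hC2, hS⟩ := shell_sum d (by omega)
  set n := d + 1 with hn
  set K : ℝ≥0∞ := ENNReal.ofReal ((4 / 3) ^ n) with hK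
  have hKt : K ≠ ∞ := ENNReal.ofReal_ne_top
  set A : ℝ≥0∞ := ENNReal.ofReal ((34 * L ^ 2) ^ k) with hA
  have hAt : A ≠ ∞ := ENNReal.ofReal_ne_top
  set C3 : ℝ≥0∞ := C2 * K ^ (2 * q) * A with hC3
  have hC3t : C3 ≠ ∞ := ENNReal.mul_ne_top (ENNReal.mul_ne_top hC2 (ENNReal.pow_ne_top hKt)) hAt
  refine ⟨C1 ^ q * (3 ^ q * (cC n q * vB n 1 + 2 ^ (q - 2) * C3
    + 3 ^ (q - 2) * (4 * (C3 * cSer)))), ?_, ?_⟩
  · apply ENNReal.mul_ne_top (ENNReal.pow_ne_top hC1)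
    apply ENNReal.mul_ne_top (ENNReal.pow_ne_top (by norm_num))
    apply ENNReal.add_ne_top.2
    refine ⟨ENNReal.add_ne_top.2 ⟨ENNReal.mul_ne_top (cC_ne_top n q) (vB_ne_top n 1), ?_⟩, ?_⟩
    · exact ENNReal.mul_ne_top (ENNReal.pow_ne_top (by norm_num)) hC3t
    · exact ENNReal.mul_ne_top (ENNReal.pow_ne_top (by norm_num)) (ENNReal.mul_ne_top (by norm_num)
        (ENNReal.mul_ne_top hC3t cSer_ne_top))
  intro N U Γ hΓ δ hδ hδ1 F hF J' J0 hJ' hJ0
  set X := ENNReal.ofReal ((δ ^ k)⁻¹) * ∫⁻ y, F y ^ q with hX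
  have hex := fun j : ℕ => hS k N q L U Γ (by omega) hL hΓ δ hδ F hF J' j hJ'
  choose M hMm hMle hMint using hex
  set G : E n → ℝ≥0∞ := fun e => C1 ^ q * (3 ^ q * (cC n q * X
        + (J0:ℝ≥0∞) ^ (q - 1) * ∑ j ∈ Finset.range J0,
            ENNReal.ofReal ((2 * (2 ^ j * δ)) ^ (q - 2)) * M j e
        + 3 ^ (q - 2) * (4 * ∑' i : ℕ, ((3 / 4 : ℝ≥0∞) ^ i)⁻¹ * M (J0 + i) e))) with hG
  have hGB : Measurable (fun e : E n => ∑ j ∈ Finset.range J0,
      ENNReal.ofReal ((2 * (2 ^ j * δ)) ^ (q - 2)) * M j e) :=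
    Finset.measurable_fun_sum _ (fun j _ => (hMm j).const_mul _)
  have hGC : Measurable (fun e : E n => ∑' i : ℕ, ((3 / 4 : ℝ≥0∞) ^ i)⁻¹ * M (J0 + i) e) :=
    Measurable.tsum (fun i => (hMm (J0 + i)).const_mul _)
  have hGm : Measurable G :=
    (((measurable_const.add (hGB.const_mul _)).add
      ((hGC.const_mul _).const_mul _)).const_mul _).const_mul _
  have hcore : ENNReal.ofReal (δ ^ q * (δ ^ n)⁻¹) = ENNReal.ofReal ((δ ^ k)⁻¹) := by
    congr 1
    rw [hd, pow_add]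
    field_simp
  refine ⟨G, hGm, ?_, ?_⟩
  · intro e a u hu t he hp
    have h1 := hT δ hδ hδ1 F hF e a (Γ u t) he hp
    have h2 := line_est (n := n) hq hδ hF (p := Γ u t) he (inner ℝ (a - Γ u t) e) J0
      (fun j => M j e) (fun j => hMle j e he u hu t)
    rw [hcore, mul_assoc (cC n q)] at h2
    calc ((volume (tube δ e a))⁻¹ * ∫⁻ y in tube δ e a, F y) ^ q
        ≤ (C1 * ∫⁻ s in Icc ((inner ℝ (a - Γ u t) e : ℝ) - 3 / 2)
            ((inner ℝ (a - Γ u t) e : ℝ) + 3 / 2), Phi (3 * δ) F (Γ u t + s • e)) ^ q :=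
          pow_le_pow_left' h1 q
      _ ≤ G e := by
          rw [mul_pow]
          exact mul_le_mul_right h2 _
  · have hmM : ∀ j, Measurable (fun x : E n => M j (‖x‖⁻¹ • x)) := fun j =>
      (hMm j).comp measurable_dir
    set Q : ℝ≥0∞ := ((J':ℝ≥0∞) + J0 + 1) ^ 2 * ((N:ℝ≥0∞) + 1) with hQ
    have hB : ∫⁻ x in closedBall (0 : E n) 1, ∑ j ∈ Finset.range J0,
        ENNReal.ofReal ((2 * (2 ^ j * δ)) ^ (q - 2)) * M j (‖x‖⁻¹ • x)
        ≤ J0 * (2 ^ (q - 2) * C3 * Q * X) := by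
      rw [lintegral_finsetSum _ (fun j _ => (hmM j).const_mul _)]
      calc ∑ j ∈ Finset.range J0, ∫⁻ x in closedBall (0 : E n) 1,
            ENNReal.ofReal ((2 * (2 ^ j * δ)) ^ (q - 2)) * M j (‖x‖⁻¹ • x)
          ≤ ∑ j ∈ Finset.range J0, 2 ^ (q - 2) * C3 * Q * X := by
            apply Finset.sum_le_sum
            intro j hj
            rw [lintegral_const_mul' _ _ ENNReal.ofReal_ne_top]
            have hjJ : (j:ℝ≥0∞) ≤ J0 := by exact_mod_cast (Finset.mem_range.1 hj).le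
            set Y := ∫⁻ y, F y ^ q with hY
            calc ENNReal.ofReal ((2 * (2 ^ j * δ)) ^ (q - 2)) *
                  ∫⁻ x in closedBall (0 : E n) 1, M j (‖x‖⁻¹ • x)
                ≤ ENNReal.ofReal ((2 * (2 ^ j * δ)) ^ (q - 2)) *
                  (C2 * (((J':ℝ≥0∞) + J0 + 1) ^ 2 * (N + 1)) *
                  (ENNReal.ofReal ((2 ^ j * δ) * ((2 ^ j * δ) ^ d)⁻¹) * (K ^ (2 * q) *
                    (ENNReal.ofReal ((34 * L ^ 2 * 2 ^ j) ^ k) * Y)))) := by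
                  refine mul_le_mul' le_rfl ((hMint j).trans ?_)
                  refine mul_le_mul' (mul_le_mul' le_rfl (mul_le_mul' (pow_le_pow_left' ?_ 2)
                    le_rfl)) le_rfl
                  exact add_le_add (add_le_add le_rfl hjJ) le_rfl
              _ = (ENNReal.ofReal ((2 * (2 ^ j * δ)) ^ (q - 2)) *
                  ENNReal.ofReal ((2 ^ j * δ) * ((2 ^ j * δ) ^ d)⁻¹) *
                    ENNReal.ofReal ((34 * L ^ 2 * 2 ^ j) ^ k)) *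
                  ((C2 * K ^ (2 * q)) * Q * Y) := by rw [hQ]; ring
              _ = _ := by
                  have e1 : ENNReal.ofReal ((2 * (2 ^ j * δ)) ^ (q - 2)) *
                      ENNReal.ofReal ((2 ^ j * δ) * ((2 ^ j * δ) ^ d)⁻¹) *
                        ENNReal.ofReal ((34 * L ^ 2 * 2 ^ j) ^ k)
                      = 2 ^ (q - 2) * (A * ENNReal.ofReal ((δ ^ k)⁻¹)) := by
                    rw [hA, ← ENNReal.ofReal_mul (by positivity),
                      ← ENNReal.ofReal_mul (by positivity), ← ENNReal.ofReal_mul (by positivity)]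
                    have hl : 0 < 2 ^ j * δ := by positivity
                    have e2 : (2 * (2 ^ j * δ)) ^ (q - 2) * ((2 ^ j * δ) * ((2 ^ j * δ) ^ d)⁻¹) *
                        (34 * L ^ 2 * 2 ^ j) ^ k
                        = 2 ^ (q - 2) * ((34 * L ^ 2) ^ k * (δ ^ k)⁻¹) := by
                      obtain ⟨r, rfl⟩ : ∃ r, q = r + 2 := ⟨q - 2, by omega⟩
                      have hdr : d = r + 1 + k := by omega
                      rw [hdr, Nat.add_sub_cancel, mul_pow, pow_add (2 ^ j * δ) (r + 1) k,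
                        pow_succ (2 ^ j * δ) r, mul_pow (34 * L ^ 2) (2 ^ j) k, mul_pow (2 ^ j) δ k]
                      field_simp
                    rw [e2, ENNReal.ofReal_mul (by positivity), ENNReal.ofReal_pow (by norm_num)]
                    simp
                  rw [e1, hX, hC3]
                  ring
        _ = _ := by rw [Finset.sum_const, Finset.card_range, nsmul_eq_mul]
    have hCi : ∫⁻ x in closedBall (0 : E n) 1, ∑' i : ℕ,
        ((3 / 4 : ℝ≥0∞) ^ i)⁻¹ * M (J0 + i) (‖x‖⁻¹ • x)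
        ≤ C3 * cSer * Q * X := by
      rw [lintegral_tsum (fun i => ((hmM (J0 + i)).const_mul _).aemeasurable)]
      calc ∑' i : ℕ, ∫⁻ x in closedBall (0 : E n) 1,
            ((3 / 4 : ℝ≥0∞) ^ i)⁻¹ * M (J0 + i) (‖x‖⁻¹ • x)
          ≤ ∑' i : ℕ, (((3 / 4 : ℝ≥0∞) ^ i)⁻¹ * (((i:ℝ≥0∞) + 1) ^ 2 *
              ENNReal.ofReal ((2 ^ i)⁻¹))) * (C3 * Q * X) := by
            apply ENNReal.tsum_le_tsum
            intro i
            rw [lintegral_const_mul' _ _ (ENNReal.inv_ne_top.2 (three_four_pow_ne_zero i))]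
            set Y := ∫⁻ y, F y ^ q with hY
            have hJi : (J':ℝ≥0∞) + ((J0 + i : ℕ) : ℝ≥0∞) + 1
                ≤ ((J':ℝ≥0∞) + J0 + 1) * ((i:ℝ≥0∞) + 1) := by
              push_cast
              calc (J':ℝ≥0∞) + (J0 + i) + 1 = ((J':ℝ≥0∞) + J0 + 1) * 1 + 1 * i := by ring
                _ ≤ ((J':ℝ≥0∞) + J0 + 1) * 1 + ((J':ℝ≥0∞) + J0 + 1) * i := by
                  gcongr
                  exact le_add_self
                _ = _ := by ring
            have hreal : ENNReal.ofReal ((2 ^ (J0 + i) * δ) * ((2 ^ (J0 + i) * δ) ^ d)⁻¹) *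
                ENNReal.ofReal ((34 * L ^ 2 * 2 ^ (J0 + i)) ^ k)
                ≤ ENNReal.ofReal ((2 ^ i)⁻¹) * (A * ENNReal.ofReal ((δ ^ k)⁻¹)) := by
              rw [hA, ← ENNReal.ofReal_mul (by positivity), ← ENNReal.ofReal_mul (by positivity),
                ← ENNReal.ofReal_mul (by positivity)]
              apply ENNReal.ofReal_le_ofReal
              have h1 : (1:ℝ) ≤ 2 ^ i := one_le_pow₀ (by norm_num)
              set l : ℝ := 2 ^ (J0 + i) * δ with hl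
              have hl0 : 0 < l := by positivity
              have h2 : (2:ℝ) ^ i ≤ l := by
                rw [hl, pow_add]
                nlinarith
              have hl1 : 1 ≤ l := h1.trans h2
              obtain ⟨r, rfl⟩ : ∃ r, q = r + 3 := ⟨q - 3, by omega⟩
              have hdr : d = (r + 1) + 1 + k := by omega
              have e2 : l * (l ^ d)⁻¹ * (34 * L ^ 2 * 2 ^ (J0 + i)) ^ k
                  = (l ^ (r + 1))⁻¹ * ((34 * L ^ 2) ^ k * (δ ^ k)⁻¹) := by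
                have e3 : (2:ℝ) ^ (J0 + i) = l / δ := by rw [hl]; field_simp
                rw [hdr, pow_add l (r + 1 + 1) k, pow_succ l (r + 1), e3,
                  mul_pow (34 * L ^ 2) (l / δ) k, div_pow]
                field_simp
              rw [e2]
              apply mul_le_mul_of_nonneg_right _ (by positivity)
              apply inv_anti₀ (by positivity)
              calc (2:ℝ) ^ i ≤ l := h2
                _ = l ^ 1 := (pow_one l).symm
                _ ≤ l ^ (r + 1) := pow_le_pow_right₀ hl1 (by omega)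
            calc ((3 / 4 : ℝ≥0∞) ^ i)⁻¹ *
                  ∫⁻ x in closedBall (0 : E n) 1, M (J0 + i) (‖x‖⁻¹ • x)
                ≤ ((3 / 4 : ℝ≥0∞) ^ i)⁻¹ * (C2 * (((((J':ℝ≥0∞) + J0 + 1) * ((i:ℝ≥0∞) + 1)) ^ 2)
                    * (N + 1)) * (ENNReal.ofReal ((2 ^ (J0 + i) * δ) *
                      ((2 ^ (J0 + i) * δ) ^ d)⁻¹) * (K ^ (2 * q) *
                    (ENNReal.ofReal ((34 * L ^ 2 * 2 ^ (J0 + i)) ^ k) * Y)))) := by
                  refine mul_le_mul' le_rfl ((hMint (J0 + i)).trans ?_)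
                  exact mul_le_mul' (mul_le_mul' le_rfl (mul_le_mul' (pow_le_pow_left' hJi 2)
                    le_rfl)) le_rfl
              _ = ((3 / 4 : ℝ≥0∞) ^ i)⁻¹ * (C2 * (((((J':ℝ≥0∞) + J0 + 1) * ((i:ℝ≥0∞) + 1)) ^ 2)
                    * (N + 1)) * (K ^ (2 * q) * Y) * (ENNReal.ofReal ((2 ^ (J0 + i) * δ) *
                      ((2 ^ (J0 + i) * δ) ^ d)⁻¹) *
                    ENNReal.ofReal ((34 * L ^ 2 * 2 ^ (J0 + i)) ^ k))) := by ring
              _ ≤ ((3 / 4 : ℝ≥0∞) ^ i)⁻¹ * (C2 * (((((J':ℝ≥0∞) + J0 + 1) * ((i:ℝ≥0∞) + 1)) ^ 2)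
                    * (N + 1)) * (K ^ (2 * q) * Y) * (ENNReal.ofReal ((2 ^ i)⁻¹) *
                    (A * ENNReal.ofReal ((δ ^ k)⁻¹)))) := by
                  exact mul_le_mul' le_rfl (mul_le_mul' le_rfl hreal)
              _ = _ := by rw [hQ, hX, hC3]; ring
        _ = _ := by
            rw [ENNReal.tsum_mul_right]
            have : cSer = ∑' i : ℕ, ((3 / 4 : ℝ≥0∞) ^ i)⁻¹ *
              (((i:ℝ≥0∞) + 1) ^ 2 * ENNReal.ofReal ((2 ^ i)⁻¹)) := rfl
            rw [← this]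
            ring
    have hmB : Measurable (fun x : E n => ∑ j ∈ Finset.range J0,
        ENNReal.ofReal ((2 * (2 ^ j * δ)) ^ (q - 2)) * M j (‖x‖⁻¹ • x)) :=
      hGB.comp measurable_dir
    have hmC : Measurable (fun x : E n => ∑' i : ℕ,
        ((3 / 4 : ℝ≥0∞) ^ i)⁻¹ * M (J0 + i) (‖x‖⁻¹ • x)) := hGC.comp measurable_dir
    have hInt : ∫⁻ x in closedBall (0 : E n) 1, G (‖x‖⁻¹ • x)
        = C1 ^ q * (3 ^ q * (cC n q * X * vB n 1
          + (J0:ℝ≥0∞) ^ (q - 1) * (∫⁻ x in closedBall (0 : E n) 1, ∑ j ∈ Finset.range J0,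
            ENNReal.ofReal ((2 * (2 ^ j * δ)) ^ (q - 2)) * M j (‖x‖⁻¹ • x))
          + 3 ^ (q - 2) * (4 * ∫⁻ x in closedBall (0 : E n) 1, ∑' i : ℕ,
            ((3 / 4 : ℝ≥0∞) ^ i)⁻¹ * M (J0 + i) (‖x‖⁻¹ • x)))) := by
      simp only [hG]
      rw [lintegral_const_mul' _ _ (ENNReal.pow_ne_top hC1),
        lintegral_const_mul' _ _ (ENNReal.pow_ne_top (by norm_num)),
        lintegral_add_right _ ((hmC.const_mul _).const_mul _),
        lintegral_add_right _ (hmB.const_mul _), setLIntegral_const,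
        lintegral_const_mul' _ _ (ENNReal.pow_ne_top (ENNReal.natCast_ne_top _)),
        lintegral_const_mul' _ _ (ENNReal.pow_ne_top (by norm_num)),
        lintegral_const_mul' _ _ (by norm_num)]
      rfl
    rw [hInt]
    set P : ℝ≥0∞ := ((J0:ℝ≥0∞) + 1) ^ q * Q with hP
    have hQ1 : 1 ≤ Q := by
      rw [hQ]
      calc (1:ℝ≥0∞) = 1 ^ 2 * 1 := by norm_num
        _ ≤ _ := by
          gcongr
          · exact le_add_self
          · exact le_add_self
    have hJ1 : (1:ℝ≥0∞) ≤ ((J0:ℝ≥0∞) + 1) ^ q := one_le_pow₀ le_add_self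
    have hP1 : 1 ≤ P := by
      calc (1:ℝ≥0∞) = 1 * 1 := by norm_num
        _ ≤ P := mul_le_mul' hJ1 hQ1
    have hQP : Q ≤ P := by
      calc Q = 1 * Q := (one_mul _).symm
        _ ≤ P := mul_le_mul' hJ1 le_rfl
    have hJQ : (J0:ℝ≥0∞) ^ (q - 1) * J0 * Q ≤ P := by
      apply mul_le_mul' _ le_rfl
      calc (J0:ℝ≥0∞) ^ (q - 1) * J0 = (J0:ℝ≥0∞) ^ q := by
            rw [← pow_succ]
            congr 1
            omega
        _ ≤ _ := pow_le_pow_left' le_self_add q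
    calc C1 ^ q * (3 ^ q * (cC n q * X * vB n 1
          + (J0:ℝ≥0∞) ^ (q - 1) * (∫⁻ x in closedBall (0 : E n) 1, ∑ j ∈ Finset.range J0,
            ENNReal.ofReal ((2 * (2 ^ j * δ)) ^ (q - 2)) * M j (‖x‖⁻¹ • x))
          + 3 ^ (q - 2) * (4 * ∫⁻ x in closedBall (0 : E n) 1, ∑' i : ℕ,
            ((3 / 4 : ℝ≥0∞) ^ i)⁻¹ * M (J0 + i) (‖x‖⁻¹ • x))))
        ≤ C1 ^ q * (3 ^ q * (cC n q * X * vB n 1 * P
          + (J0:ℝ≥0∞) ^ (q - 1) * (J0 * (2 ^ (q - 2) * C3 * Q * X))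
          + 3 ^ (q - 2) * (4 * (C3 * cSer * P * X)))) := by
          have b1 : cC n q * X * vB n 1 ≤ cC n q * X * vB n 1 * P :=
            le_mul_of_one_le_right zero_le hP1
          have b2 : C3 * cSer * Q * X ≤ C3 * cSer * P * X := by gcongr
          exact mul_le_mul_right (mul_le_mul_right (add_le_add (add_le_add b1
            (mul_le_mul_right hB _)) (mul_le_mul_right (mul_le_mul_right (hCi.trans b2) _) _)) _) _
      _ = C1 ^ q * (3 ^ q * (cC n q * X * vB n 1 * P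
          + ((J0:ℝ≥0∞) ^ (q - 1) * J0 * Q) * (2 ^ (q - 2) * C3 * X)
          + 3 ^ (q - 2) * (4 * (C3 * cSer * P * X)))) := by ring
      _ ≤ C1 ^ q * (3 ^ q * (cC n q * X * vB n 1 * P
          + P * (2 ^ (q - 2) * C3 * X)
          + 3 ^ (q - 2) * (4 * (C3 * cSer * P * X)))) := by gcongr
      _ = _ := by
          rw [hP, hQ]
          ring

end Pool.Agent.U527.Srf
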