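import Pool.Agent.U527.Srf.Asm

set_option autoImplicit false
set_option linter.unusedSectionVars false

/-!
Tubes meeting a set which is foliated by curves of finite order: the estimate over the sphere, for all
real exponents from the critical one on, and polynomial graphs.
-/

open MeasureTheory Set Filter Topology ENNReal NNReal Metric

namespace Pool.Agent.U527.Srf

open Pool.Agent.H742R2.Kk Pool.Agent.W767.Kc

theorem log_bound (d q : ℕ) : ∃ c : ℝ, 0 < c ∧ ∀ (N : ℕ) (δ : ℝ), 0 < δ → δ < 1 →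
    ∃ J' J0 : ℕ, 1 + ((d:ℝ) + 1) * N ≤ 2 ^ J' ∧ 1 ≤ 2 ^ J0 * δ ∧
      ((J0:ℝ) + 1) ^ q * ((J':ℝ) + J0 + 1) ^ 2
        ≤ c * (1 + Real.log (N + 1)) ^ 2 * (1 + Real.log (1 / δ)) ^ (q + 2) := by
  set c1 : ℝ := (3/2) * Real.log (d + 1) + 5 with hc1
  have hlogd : 0 ≤ Real.log ((d:ℝ) + 1) := Real.log_nonneg (by
    have : (0:ℝ) ≤ d := by positivity
    linarith)
  refine ⟨2 ^ q * c1 ^ 2, by positivity, ?_⟩
  intro N δ hδ hδ1
  have hlog2 : 2 / 3 < Real.log 2 := by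
    have := Real.log_two_gt_d9
    linarith
  have hlogb : ∀ x : ℝ, 1 ≤ x → Real.logb 2 x ≤ (3/2) * Real.log x := by
    intro x hx
    have h1 : 0 ≤ Real.log x := Real.log_nonneg hx
    rw [Real.logb, div_le_iff₀ (by linarith)]
    nlinarith
  have hceil : ∀ x : ℝ, 1 ≤ x → x ≤ 2 ^ ⌈Real.logb 2 x⌉₊ := by
    intro x hx
    have h1 : Real.logb 2 x ≤ ⌈Real.logb 2 x⌉₊ := Nat.le_ceil _
    rw [Real.logb_le_iff_le_rpow (by norm_num) (by linarith), Real.rpow_natCast] at h1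
    exact h1
  have hceil2 : ∀ x : ℝ, 1 ≤ x → (⌈Real.logb 2 x⌉₊ : ℝ) ≤ (3/2) * Real.log x + 1 := by
    intro x hx
    have h0 : 0 ≤ Real.logb 2 x := Real.logb_nonneg (by norm_num) hx
    have h1 := (Nat.ceil_lt_add_one h0).le
    have h2 := hlogb x hx
    linarith
  have hx1 : (1:ℝ) ≤ 1 + ((d:ℝ) + 1) * N := by
    have : 0 ≤ ((d:ℝ) + 1) * N := by positivity
    linarith
  have hx2 : (1:ℝ) ≤ 1 / δ := by
    rw [le_div_iff₀ hδ]; linarith
  refine ⟨⌈Real.logb 2 (1 + ((d:ℝ) + 1) * N)⌉₊, ⌈Real.logb 2 (1 / δ)⌉₊, hceil _ hx1, ?_, ?_⟩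
  · have h1 := hceil _ hx2
    rw [div_le_iff₀ hδ] at h1
    exact h1
  · set L : ℝ := 1 + Real.log (1 / δ) with hL
    set P : ℝ := 1 + Real.log ((N:ℝ) + 1) with hP
    have hlogδ : 0 ≤ Real.log (1 / δ) := Real.log_nonneg hx2
    have hlogN : 0 ≤ Real.log ((N:ℝ) + 1) := Real.log_nonneg (by
      have : (0:ℝ) ≤ N := by positivity
      linarith)
    have hL1 : 1 ≤ L := by linarith
    have hP1 : 1 ≤ P := by linarith
    have hJ0 := hceil2 _ hx2
    have hJ' := hceil2 _ hx1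
    have h3 : Real.log (1 + ((d:ℝ) + 1) * N) ≤ Real.log ((d:ℝ) + 1) + Real.log ((N:ℝ) + 1) := by
      rw [← Real.log_mul (by positivity) (by positivity)]
      apply Real.log_le_log (by linarith)
      have : (0:ℝ) ≤ d := by positivity
      nlinarith
    have hA : (⌈Real.logb 2 (1 / δ)⌉₊ : ℝ) + 1 ≤ 2 * L := by
      rw [hL]; linarith
    have hB : (⌈Real.logb 2 (1 + ((d:ℝ) + 1) * N)⌉₊ : ℝ) + ⌈Real.logb 2 (1 / δ)⌉₊ + 1
        ≤ c1 * P * L := by
      have hPL : 1 ≤ P * L := by nlinarith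
      have h4 : (⌈Real.logb 2 (1 + ((d:ℝ) + 1) * N)⌉₊ : ℝ) + ⌈Real.logb 2 (1 / δ)⌉₊ + 1
          ≤ (3/2) * Real.log ((d:ℝ) + 1) + (3/2) * (P - 1) + 1 + 2 * L := by
        rw [hP]
        linarith
      have h5 : P ≤ P * L := by nlinarith
      have h6 : L ≤ P * L := by nlinarith
      have h7 : Real.log ((d:ℝ) + 1) ≤ Real.log ((d:ℝ) + 1) * (P * L) := by nlinarith
      rw [hc1]
      nlinarith
    calc (⌈Real.logb 2 (1 / δ)⌉₊ + 1 : ℝ) ^ q *
          ((⌈Real.logb 2 (1 + ((d:ℝ) + 1) * N)⌉₊ : ℝ) + ⌈Real.logb 2 (1 / δ)⌉₊ + 1) ^ 2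
        ≤ (2 * L) ^ q * (c1 * P * L) ^ 2 := by
          gcongr
      _ = 2 ^ q * c1 ^ 2 * P ^ 2 * L ^ (q + 2) := by
          rw [mul_pow, mul_pow, mul_pow, pow_add L q 2]
          ring

/-- The estimate over the sphere. -/
theorem main (d k q : ℕ) (hq : 3 ≤ q) (hd : d + 1 = q + k) (L : ℝ) (hL : 1 ≤ L) :
    ∃ C : ℝ, 0 < C ∧
    ∀ (N : ℕ) (U : Set (Fin k → ℝ)) (Γ : (Fin k → ℝ) → ℝ → E (d + 1)), Fol N L U Γ →
    ∀ δ : ℝ, 0 < δ → δ < 1 → ∀ F : E (d + 1) → ℝ≥0∞, Measurable F →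
    ∃ G : E (d + 1) → ℝ≥0∞, Measurable G ∧
      (∀ e a : E (d + 1), ∀ u ∈ U, ∀ t : ℝ, ‖e‖ = 1 →
        ‖(a - Γ u t) - (inner ℝ (a - Γ u t) e : ℝ) • e‖ ≤ δ →
        ((volume (tube δ e a))⁻¹ * ∫⁻ y in tube δ e a, F y) ^ q ≤ G e) ∧
      ∫⁻ e : sphere (0 : E (d + 1)) 1, G e ∂(volume : Measure (E (d + 1))).toSphere
        ≤ ENNReal.ofReal (C * (N + 1) * (1 + Real.log (N + 1)) ^ 2
            * (1 + Real.log (1 / δ)) ^ (q + 2) * (1 / δ) ^ k) * ∫⁻ y, F y ^ q := by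
  obtain ⟨A, hA, hmain⟩ := main_enn d k q hq hd L hL
  obtain ⟨c, hc, hlog⟩ := log_bound d q
  refine ⟨((d:ℝ) + 1) * (A.toReal + 1) * c, by positivity, ?_⟩
  intro N U Γ hΓ δ hδ hδ1 F hF
  obtain ⟨J', J0, hJ', hJ0, hJ⟩ := hlog N δ hδ hδ1
  obtain ⟨G, hGm, hGle, hGint⟩ := hmain N U Γ hΓ δ hδ hδ1.le F hF J' J0 hJ' hJ0
  refine ⟨G, hGm, hGle, ?_⟩
  have hR : A * ((((J0:ℝ≥0∞) + 1) ^ q * ((J':ℝ≥0∞) + J0 + 1) ^ 2 * ((N:ℝ≥0∞) + 1)))
      ≤ ENNReal.ofReal ((A.toReal + 1) * (c * (1 + Real.log (N + 1)) ^ 2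
        * (1 + Real.log (1 / δ)) ^ (q + 2) * (N + 1))) := by
    have e1 : ((J0:ℝ≥0∞) + 1) = ENNReal.ofReal ((J0:ℝ) + 1) := by
      rw [ENNReal.ofReal_add (by positivity) (by norm_num)]; simp
    have e2 : ((J':ℝ≥0∞) + J0 + 1) = ENNReal.ofReal ((J':ℝ) + J0 + 1) := by
      rw [ENNReal.ofReal_add (by positivity) (by norm_num),
        ENNReal.ofReal_add (by positivity) (by positivity)]; simp
    have e3 : ((N:ℝ≥0∞) + 1) = ENNReal.ofReal ((N:ℝ) + 1) := by
      rw [ENNReal.ofReal_add (by positivity) (by norm_num)]; simp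
    have e4 : A ≤ ENNReal.ofReal (A.toReal + 1) := by
      calc A = ENNReal.ofReal A.toReal := (ENNReal.ofReal_toReal hA).symm
        _ ≤ _ := ENNReal.ofReal_le_ofReal (by linarith)
    rw [e1, e2, e3, ← ENNReal.ofReal_pow (by positivity), ← ENNReal.ofReal_pow (by positivity),
      ← ENNReal.ofReal_mul (by positivity), ← ENNReal.ofReal_mul (by positivity)]
    refine (mul_le_mul' e4 le_rfl).trans ?_
    rw [← ENNReal.ofReal_mul (by positivity)]
    apply ENNReal.ofReal_le_ofReal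
    gcongr
  have hl : 0 ≤ Real.log (1 / δ) := Real.log_nonneg (by rw [le_div_iff₀ hδ]; linarith)
  have hlN : 0 ≤ Real.log ((N:ℝ) + 1) := Real.log_nonneg (by
    have : (0:ℝ) ≤ N := by positivity
    linarith)
  calc ∫⁻ e : sphere (0 : E (d + 1)) 1, G e ∂(volume : Measure (E (d + 1))).toSphere
      ≤ ((d:ℝ≥0∞) + 1) * ∫⁻ x in closedBall (0 : E (d + 1)) 1,
          G (‖x‖⁻¹ • x) := Pool.Agent.H742R2.Kk.sphere_le_ball d hGm
    _ ≤ ((d:ℝ≥0∞) + 1) * (A * ((((J0:ℝ≥0∞) + 1) ^ q * ((J':ℝ≥0∞) + J0 + 1) ^ 2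
          * ((N:ℝ≥0∞) + 1))) * (ENNReal.ofReal ((δ ^ k)⁻¹) * ∫⁻ y, F y ^ q)) := by
        gcongr
    _ ≤ ENNReal.ofReal ((d:ℝ) + 1) * (ENNReal.ofReal ((A.toReal + 1) *
          (c * (1 + Real.log (N + 1)) ^ 2
        * (1 + Real.log (1 / δ)) ^ (q + 2) * (N + 1))) *
          (ENNReal.ofReal ((δ ^ k)⁻¹) * ∫⁻ y, F y ^ q)) := by
        have e5 : ((d:ℝ≥0∞) + 1) = ENNReal.ofReal ((d:ℝ) + 1) := by
          rw [ENNReal.ofReal_add (by positivity) (by norm_num)]; simp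
        rw [e5]
        gcongr
    _ = _ := by
        rw [← mul_assoc (ENNReal.ofReal ((A.toReal + 1) * _)), ← mul_assoc,
          ← ENNReal.ofReal_mul (by positivity), ← ENNReal.ofReal_mul (by positivity)]
        congr 2
        rw [one_div_pow]
        ring

/-- Powers of averages. -/
theorem avg_pow {n : ℕ} (T : Set (E n)) {g : E n → ℝ≥0∞} (hg : Measurable g) {r : ℝ} (hr : 1 ≤ r)
    (h0 : volume T ≠ 0) (h1 : volume T ≠ ∞) :
    ((volume T)⁻¹ * ∫⁻ y in T, g y) ^ r ≤ (volume T)⁻¹ * ∫⁻ y in T, g y ^ r := by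
  rcases hr.eq_or_lt with h | h
  · rw [← h]; simp
  · have h2 := holder_pow (volume.restrict T) hg.aemeasurable h
    rw [Measure.restrict_apply_univ] at h2
    rw [ENNReal.mul_rpow_of_nonneg _ _ (by linarith)]
    calc (volume T)⁻¹ ^ r * (∫⁻ y in T, g y) ^ r
        ≤ (volume T)⁻¹ ^ r * ((volume T) ^ (r - 1) * ∫⁻ y in T, g y ^ r) := by gcongr
      _ = _ := by
          rw [← mul_assoc]
          congr 1
          rw [ENNReal.inv_rpow, ← ENNReal.rpow_neg, ← ENNReal.rpow_add _ _ h0 h1]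
          have : -r + (r - 1) = -1 := by ring
          rw [this, ENNReal.rpow_neg_one]

theorem contDiff_eval {m : ℕ} (P : MvPolynomial (Fin m) ℝ) :
    ContDiff ℝ 1 (fun y : Fin m → ℝ => MvPolynomial.eval y P) := by
  induction P using MvPolynomial.induction_on with
  | C a => simp only [MvPolynomial.eval_C]; exact contDiff_const
  | add p q hp hq => simp only [map_add]; exact hp.add hq
  | mul_X p i hp => simp only [map_mul, MvPolynomial.eval_X]; exact hp.mul (by fun_prop)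

/-- truncation of the last parameter -/
noncomputable def clm (t : ℝ) : ℝ := max 0 (min t 1)

theorem clm_cont : Continuous clm := by unfold clm; fun_prop

theorem clm_mem (t : ℝ) : clm t ∈ Icc (0:ℝ) 1 := ⟨le_max_left _ _, max_le (by norm_num) (min_le_right _ _)⟩

theorem clm_eq {t : ℝ} (ht : t ∈ Icc (0:ℝ) 1) : clm t = t := by
  unfold clm
  rw [min_eq_left ht.2, max_eq_right ht.1]

theorem clm_lo {t : ℝ} (ht : t < 0) : clm t = 0 := by
  unfold clm
  rw [min_eq_left (by linarith), max_eq_left ht.le]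

theorem clm_hi {t : ℝ} (ht : 1 < t) : clm t = 1 := by
  unfold clm
  rw [min_eq_right ht.le, max_eq_right (by norm_num)]

theorem encard_roots (p : Polynomial ℝ) (N : ℕ) (hp : p.natDegree ≤ N) :
    ∀ᵐ c : ℝ, {t : ℝ | p.eval (clm t) = c}.encard ≤ N := by
  by_cases hc : p.natDegree = 0
  · obtain ⟨a, rfl⟩ := Polynomial.natDegree_eq_zero.1 hc
    have h1 : ∀ᵐ c : ℝ, c ≠ a := by
      rw [ae_iff]
      simp
    filter_upwards [h1] with c hca
    have : {t : ℝ | (Polynomial.C a).eval (clm t) = c} = ∅ := by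
      ext t
      simp only [Polynomial.eval_C, mem_setOf_eq, mem_empty_iff_false, iff_false]
      exact fun h => hca h.symm
    rw [this]
    simp
  · have h1 : ∀ᵐ c : ℝ, c ≠ p.eval 0 ∧ c ≠ p.eval 1 := by
      have h2 : ∀ᵐ c : ℝ, c ≠ p.eval 0 := by rw [ae_iff]; simp
      have h3 : ∀ᵐ c : ℝ, c ≠ p.eval 1 := by rw [ae_iff]; simp
      exact h2.and h3
    filter_upwards [h1] with c hca
    have hne : p - Polynomial.C c ≠ 0 := by
      intro h
      apply hc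
      rw [sub_eq_zero.1 h]
      simp
    have hsub : {t : ℝ | p.eval (clm t) = c} ⊆ ((p - Polynomial.C c).roots.toFinset : Set ℝ) := by
      intro t ht
      have ht' : p.eval (clm t) = c := ht
      have htt : t ∈ Icc (0:ℝ) 1 := by
        by_contra hcon
        rw [mem_Icc, not_and_or, not_le, not_le] at hcon
        rcases hcon with h | h
        · rw [clm_lo h] at ht'; exact hca.1 ht'.symm
        · rw [clm_hi h] at ht'; exact hca.2 ht'.symm
      rw [clm_eq htt] at ht'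
      simp only [Finset.mem_coe, Multiset.mem_toFinset]
      rw [Polynomial.mem_roots hne]
      simp [ht']
    refine (Set.encard_le_encard hsub).trans ?_
    rw [Set.encard_coe_eq_coe_finsetCard]
    have h4 : (p - Polynomial.C c).roots.toFinset.card ≤ N := by
      refine (Multiset.toFinset_card_le _).trans ((Polynomial.card_roots' _).trans ?_)
      rw [Polynomial.natDegree_sub_C]
      exact hp
    exact_mod_cast h4

end Pool.Agent.U527.Srf
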