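import Pool.Agent.U527.Srf.Fin

set_option autoImplicit false
set_option linter.unusedSectionVars false

/-!
Polynomial graphs are foliated by curves of finite order.
-/

open MeasureTheory Set Filter Topology ENNReal NNReal Metric

namespace Pool.Agent.U527.Srf

open Pool.Agent.H742R2.Kk Pool.Agent.W767.Kc

/-- The point `(u, clm t)`. -/
noncomputable def yv {k : ℕ} (u : Fin k → ℝ) (t : ℝ) : Fin (k + 1) → ℝ :=
  Fin.snoc (α := fun _ => ℝ) u (clm t)

theorem yv_cast {k : ℕ} (u : Fin k → ℝ) (t : ℝ) (i : Fin k) : yv u t i.castSucc = u i := by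
  simp [yv]

theorem yv_last {k : ℕ} (u : Fin k → ℝ) (t : ℝ) : yv u t (Fin.last k) = clm t := by
  simp [yv]

theorem yv_mem {k : ℕ} {u : Fin k → ℝ} (hu : u ∈ Icc (0 : Fin k → ℝ) 1) (t : ℝ) :
    yv u t ∈ Icc (0 : Fin (k + 1) → ℝ) 1 := by
  constructor
  · intro i
    refine Fin.lastCases ?_ (fun i => ?_) i
    · rw [yv_last]; exact (clm_mem t).1
    · rw [yv_cast]; exact hu.1 i
  · intro i
    refine Fin.lastCases ?_ (fun i => ?_) i
    · rw [yv_last]; exact (clm_mem t).2
    · rw [yv_cast]; exact hu.2 i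

theorem yv_sub {k : ℕ} (u u' : Fin k → ℝ) (t : ℝ) : ‖yv u t - yv u' t‖ ≤ ‖u - u'‖ := by
  rw [pi_norm_le_iff_of_nonneg (norm_nonneg _)]
  intro i
  rw [Pi.sub_apply]
  refine Fin.lastCases ?_ (fun i => ?_) i
  · rw [yv_last, yv_last, sub_self, norm_zero]; exact norm_nonneg _
  · rw [yv_cast, yv_cast]
    exact norm_le_pi_norm (u - u') i

theorem yv_cont {k : ℕ} (u : Fin k → ℝ) : Continuous (yv u) := by
  apply continuous_pi
  intro i
  refine Fin.lastCases ?_ (fun i => ?_) i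
  · simp_rw [yv_last]; exact clm_cont
  · simp_rw [yv_cast]; exact continuous_const

/-- The polynomials of the parametrisation of the graph of `Q`. -/
noncomputable def RR {n k : ℕ} (Q : Fin n → MvPolynomial (Fin (k + 1)) ℝ) (i : Fin n) :
    MvPolynomial (Fin (k + 1)) ℝ :=
  if h : (i:ℕ) < k + 1 then MvPolynomial.X ⟨i, h⟩ else Q i

/-- The leaves. -/
noncomputable def Gm {n k : ℕ} (Q : Fin n → MvPolynomial (Fin (k + 1)) ℝ) (u : Fin k → ℝ) (t : ℝ) :
    E n :=
  WithLp.toLp 2 fun i => MvPolynomial.eval (yv u t) (RR Q i)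

theorem Gm_apply {n k : ℕ} (Q : Fin n → MvPolynomial (Fin (k + 1)) ℝ) (u : Fin k → ℝ) (t : ℝ)
    (i : Fin n) : Gm Q u t i = MvPolynomial.eval (yv u t) (RR Q i) := rfl

/-- The restriction of a polynomial to a line of the last variable. -/
noncomputable def pu {k : ℕ} (u : Fin k → ℝ) (P : MvPolynomial (Fin (k + 1)) ℝ) : Polynomial ℝ :=
  MvPolynomial.aeval (Fin.snoc (α := fun _ => Polynomial ℝ) (fun j => Polynomial.C (u j))
    Polynomial.X) P

theorem pu_eval {k : ℕ} (u : Fin k → ℝ) (P : MvPolynomial (Fin (k + 1)) ℝ) (t : ℝ) :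
    (pu u P).eval (clm t) = MvPolynomial.eval (yv u t) P := by
  unfold pu
  induction P using MvPolynomial.induction_on with
  | C a => simp
  | add p q hp hq => simp only [map_add, Polynomial.eval_add, hp, hq]
  | mul_X p i hp =>
    simp only [map_mul, Polynomial.eval_mul, hp, MvPolynomial.aeval_X, MvPolynomial.eval_X]
    congr 1
    refine Fin.lastCases ?_ (fun i => ?_) i
    · rw [yv_last]; simp
    · rw [yv_cast]; simp

theorem pu_deg {k N : ℕ} (u : Fin k → ℝ) (P : MvPolynomial (Fin (k + 1)) ℝ)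
    (hP : P.totalDegree ≤ N) : (pu u P).natDegree ≤ N := by
  have h := MvPolynomial.aeval_natDegree_le (m := N) (n := 1) P hP
    (Fin.snoc (α := fun _ => Polynomial ℝ) (fun j => Polynomial.C (u j)) Polynomial.X) (by
      intro i
      refine Fin.lastCases ?_ (fun i => ?_) i
      · simp
      · simp)
  rw [mul_one] at h
  exact h

theorem fol_graph {n k N : ℕ} (hk : k < n) (Q : Fin n → MvPolynomial (Fin (k + 1)) ℝ)
    (hN : 1 ≤ N) (hQ : ∀ i, (Q i).totalDegree ≤ N) :
    ∃ L : ℝ, 1 ≤ L ∧ Fol N L (Icc (0 : Fin k → ℝ) 1) (Gm Q) := by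
  have hR : ∀ i, (RR Q i).totalDegree ≤ N := by
    intro i
    unfold RR
    split_ifs with h
    · rw [MvPolynomial.totalDegree_X]; exact hN
    · exact hQ i
  have hcd : ContDiff ℝ 1 (fun y : Fin (k + 1) → ℝ =>
      (WithLp.toLp 2 fun i => MvPolynomial.eval y (RR Q i) : E n)) := by
    rw [contDiff_euclidean]
    intro i
    exact contDiff_eval _
  obtain ⟨K, hK⟩ := (hcd.contDiffOn (s := Icc (0 : Fin (k + 1) → ℝ) 1)).exists_lipschitzOnWith
    (by norm_num) (convex_Icc _ _) isCompact_Icc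
  refine ⟨max K 1, le_max_right _ _, ?_, ?_, ?_, ?_⟩
  · intro u _
    exact hcd.continuous.comp (yv_cont u)
  · intro u _ ν hν
    have h := encard_roots (∑ i, Polynomial.C (ν i) * pu u (RR Q i)) N (by
      apply Polynomial.natDegree_sum_le_of_forall_le
      intro i _
      refine (Polynomial.natDegree_C_mul_le _ _).trans (pu_deg u _ (hR i)))
    filter_upwards [h] with c hc
    have e : {t : ℝ | inner ℝ ν (Gm Q u t) = c}
        = {t : ℝ | (∑ i, Polynomial.C (ν i) * pu u (RR Q i)).eval (clm t) = c} := by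
      ext t
      rw [mem_ofPred_eq, mem_ofPred_eq, Polynomial.eval_finsetSum]
      have e1 : inner ℝ ν (Gm Q u t)
          = ∑ i, (Polynomial.C (ν i) * pu u (RR Q i)).eval (clm t) := by
        rw [PiLp.inner_apply]
        apply Finset.sum_congr rfl
        intro i _
        rw [Polynomial.eval_mul, Polynomial.eval_C, pu_eval, Gm_apply]
        simp [mul_comm]
      rw [e1]
    rw [e]
    exact hc
  · intro u hu u' hu' t
    have h1 := hK.dist_le_mul _ (yv_mem hu t) _ (yv_mem hu' t)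
    rw [dist_eq_norm, dist_eq_norm] at h1
    calc ‖Gm Q u t - Gm Q u' t‖ ≤ K * ‖yv u t - yv u' t‖ := h1
      _ ≤ max (K:ℝ) 1 * ‖u - u'‖ := by
        gcongr
        · exact le_max_left _ _
        · exact yv_sub u u' t
  · intro u _ u' _ t t'
    have h1 : ‖u - u'‖ ≤ ‖Gm Q u t - Gm Q u' t'‖ := by
      rw [pi_norm_le_iff_of_nonneg (norm_nonneg _)]
      intro i
      have h2 := PiLp.norm_apply_le (Gm Q u t - Gm Q u' t') (⟨i, by omega⟩ : Fin n)
      have h3 : ∀ (w : Fin k → ℝ) (s : ℝ), Gm Q w s (⟨i, by omega⟩ : Fin n) = w i := by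
        intro w s
        rw [Gm_apply, RR, dif_pos (show ((⟨i, by omega⟩ : Fin n) : ℕ) < k + 1 by
          simp only; omega), MvPolynomial.eval_X]
        exact yv_cast w s i
      rw [PiLp.sub_apply, h3, h3] at h2
      exact h2
    calc ‖u - u'‖ ≤ 1 * ‖Gm Q u t - Gm Q u' t'‖ := by rw [one_mul]; exact h1
      _ ≤ _ := by
        gcongr
        exact le_max_right _ _

theorem graph_mem {n k : ℕ} (hk : k < n) (Q : Fin n → MvPolynomial (Fin (k + 1)) ℝ) (x : E n)
    (h1 : ∀ i : Fin n, (i:ℕ) < k + 1 → x i ∈ Icc (0:ℝ) 1)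
    (h2 : ∀ i : Fin n, k + 1 ≤ (i:ℕ) →
      x i = MvPolynomial.eval (fun j : Fin (k + 1) => x ⟨j, by omega⟩) (Q i)) :
    ∃ u ∈ Icc (0 : Fin k → ℝ) 1, ∃ t, Gm Q u t = x := by
  have hy : yv (fun j : Fin k => x ⟨j, by omega⟩) (x ⟨k, hk⟩)
      = fun j : Fin (k + 1) => x ⟨j, by omega⟩ := by
    ext j
    refine Fin.lastCases ?_ (fun i => ?_) j
    · rw [yv_last, clm_eq (h1 ⟨k, hk⟩ (by simp))]
      simp
    · rw [yv_cast]
      simp
  refine ⟨fun j => x ⟨j, by omega⟩, ⟨fun j => (h1 _ (by simp only; omega)).1,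
    fun j => (h1 _ (by simp only; omega)).2⟩, x ⟨k, hk⟩, ?_⟩
  ext i
  rw [Gm_apply, hy, RR]
  split_ifs with h
  · rw [MvPolynomial.eval_X]
  · rw [h2 i (by omega)]

end Pool.Agent.U527.Srf
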