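import Pool.Agent.W767.Kc.Asm2

set_option autoImplicit false
set_option linter.unusedSectionVars false

/-!
Tubes meeting a set which is foliated by curves of finite order: cells of leaves, localisation, and the
`L²` estimate for one shell.
-/

open MeasureTheory Set Filter Topology ENNReal NNReal Metric

namespace Pool.Agent.U527.Srf

open Pool.Agent.H742R2.Kk Pool.Agent.W767.Kc

variable {n k : ℕ}

/-- The leaves `Γ u`, `u ∈ U`, are curves of order at most `N`, they depend on `u` in a Lipschitz way,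
and `u` is a Lipschitz function on their union. -/
structure Fol (N : ℕ) (L : ℝ) (U : Set (Fin k → ℝ)) (Γ : (Fin k → ℝ) → ℝ → E n) : Prop where
  cont : ∀ u ∈ U, Continuous (Γ u)
  order : ∀ u ∈ U, OrderLE N (Γ u)
  lip : ∀ u ∈ U, ∀ u' ∈ U, ∀ t, ‖Γ u t - Γ u' t‖ ≤ L * ‖u - u'‖
  sep : ∀ u ∈ U, ∀ u' ∈ U, ∀ t t', ‖u - u'‖ ≤ L * ‖Γ u t - Γ u' t'‖

/-- The index of the cell of `u`. -/
noncomputable def idx (δ L : ℝ) (u : Fin k → ℝ) : Fin k → ℤ := fun i => ⌊u i * (L / δ)⌋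

theorem idx_close {δ L : ℝ} (hδ : 0 < δ) (hL : 1 ≤ L) {u u' : Fin k → ℝ}
    (h : idx δ L u = idx δ L u') : L * ‖u - u'‖ ≤ δ := by
  have hL0 : 0 < L := by linarith
  have h1 : ‖u - u'‖ ≤ δ / L := by
    rw [pi_norm_le_iff_of_nonneg (by positivity)]
    intro i
    have h2 := congrFun h i
    unfold idx at h2
    have h3 := Int.abs_sub_lt_one_of_floor_eq_floor h2
    rw [← sub_mul, abs_mul, abs_of_pos (by positivity : 0 < L / δ)] at h3
    rw [Pi.sub_apply, Real.norm_eq_abs, le_div_iff₀ hL0]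
    rw [mul_div_assoc', div_lt_one hδ] at h3
    exact h3.le
  calc L * ‖u - u'‖ ≤ L * (δ / L) := by gcongr
    _ = δ := by field_simp

/-- The neighbourhood of the leaves of a cell. -/
def Zs (δ L : ℝ) (U : Set (Fin k → ℝ)) (Γ : (Fin k → ℝ) → ℝ → E n) (l : ℝ) (c : Fin k → ℤ) :
    Set (E n) :=
  {x | ∃ u ∈ U, idx δ L u = c ∧ ∃ t, ‖x - Γ u t‖ < 8 * l}

theorem isOpen_Zs (δ L : ℝ) (U : Set (Fin k → ℝ)) (Γ : (Fin k → ℝ) → ℝ → E n) (l : ℝ)
    (c : Fin k → ℤ) : IsOpen (Zs δ L U Γ l c) := by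
  have h : Zs δ L U Γ l c = ⋃ u ∈ U, ⋃ (_ : idx δ L u = c), ⋃ t, ball (Γ u t) (8 * l) := by
    ext x
    simp only [Zs, mem_ofPred_eq, mem_iUnion, mem_ball, dist_eq_norm, exists_prop]
  rw [h]
  refine isOpen_biUnion fun u _ => isOpen_iUnion fun _ => isOpen_iUnion fun t => isOpen_ball

theorem overlap {N : ℕ} {δ L : ℝ} (hδ : 0 < δ) (hL : 1 ≤ L) {U : Set (Fin k → ℝ)}
    {Γ : (Fin k → ℝ) → ℝ → E n} (h : Fol N L U Γ) (j : ℕ) (x : E n) :
    ∑' c : Fin k → ℤ, (Zs δ L U Γ (2 ^ j * δ) c).indicator (fun _ => (1 : ℝ≥0∞)) x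
      ≤ ENNReal.ofReal ((34 * L ^ 2 * 2 ^ j) ^ k) := by
  classical
  have hL0 : 0 < L := by linarith
  by_cases hx : ∃ c : Fin k → ℤ, x ∈ Zs δ L U Γ (2 ^ j * δ) c
  · obtain ⟨c₀, u₀, hu₀, -, t₀, ht₀⟩ := hx
    set r : ℝ := 16 * L * (2 ^ j * δ) with hr
    have hr0 : 0 < r := by positivity
    set a : Fin k → ℤ := fun i => ⌊(u₀ i - r) * (L / δ)⌋ with ha
    set b : Fin k → ℤ := fun i => ⌊(u₀ i + r) * (L / δ)⌋ with hb
    have hmem : ∀ c : Fin k → ℤ, x ∈ Zs δ L U Γ (2 ^ j * δ) c → c ∈ Finset.Icc a b := by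
      rintro c ⟨u, hu, rfl, t, ht⟩
      have h1 : ‖u - u₀‖ ≤ r := by
        refine (h.sep u hu u₀ hu₀ t t₀).trans ?_
        have h2 : ‖Γ u t - Γ u₀ t₀‖ ≤ 16 * (2 ^ j * δ) := by
          have e : Γ u t - Γ u₀ t₀ = (x - Γ u₀ t₀) - (x - Γ u t) := by abel
          rw [e]
          refine (norm_sub_le _ _).trans ?_
          linarith
        calc L * ‖Γ u t - Γ u₀ t₀‖ ≤ L * (16 * (2 ^ j * δ)) := by gcongr
          _ = r := by rw [hr]; ring
      have h3 : ∀ i, |u i - u₀ i| ≤ r := fun i => by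
        have := norm_le_pi_norm (u - u₀) i
        rw [Pi.sub_apply, Real.norm_eq_abs] at this
        exact this.trans h1
      rw [Finset.mem_Icc]
      constructor
      · intro i
        apply Int.floor_le_floor
        have := abs_le.1 (h3 i)
        gcongr
        linarith [this.1]
      · intro i
        apply Int.floor_le_floor
        have := abs_le.1 (h3 i)
        gcongr
        linarith [this.2]
    rw [tsum_eq_sum (s := Finset.Icc a b) (fun c hc => by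
      rw [indicator_of_notMem]
      exact fun hx => hc (hmem c hx))]
    have hcard : ((Finset.Icc a b).card : ℝ) ≤ (34 * L ^ 2 * 2 ^ j) ^ k := by
      rw [Pi.card_Icc]
      push_cast
      calc ∏ i, ((Finset.Icc (a i) (b i)).card : ℝ) ≤ ∏ _i : Fin k, (34 * L ^ 2 * 2 ^ j) := by
            apply Finset.prod_le_prod (fun i _ => by positivity)
            intro i _
            rw [Int.card_Icc]
            have h1 : ((b i + 1 - a i).toNat : ℝ) ≤ max ((b i : ℝ) + 1 - a i) 0 := by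
              rcases le_total 0 (b i + 1 - a i) with h | h
              · have : ((b i + 1 - a i).toNat : ℝ) = (b i : ℝ) + 1 - a i := by
                  have h2 := Int.toNat_of_nonneg h
                  have h3 : (((b i + 1 - a i).toNat : ℤ) : ℝ) = ((b i + 1 - a i : ℤ) : ℝ) := by
                    rw [h2]
                  push_cast at h3
                  exact h3
                rw [this]
                exact le_max_left _ _
              · rw [Int.toNat_of_nonpos h]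
                simp
            refine h1.trans (max_le ?_ (by positivity))
            have h2 : (b i : ℝ) ≤ (u₀ i + r) * (L / δ) := Int.floor_le _
            have h3 : (u₀ i - r) * (L / δ) < a i + 1 := Int.lt_floor_add_one _
            have h4 : (u₀ i + r) * (L / δ) - (u₀ i - r) * (L / δ) = 32 * L ^ 2 * 2 ^ j := by
              rw [hr]
              field_simp
              ring
            have h5 : (1:ℝ) ≤ L ^ 2 * 2 ^ j := by
              have : (1:ℝ) ≤ 2 ^ j := one_le_pow₀ (by norm_num)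
              nlinarith
            nlinarith
        _ = _ := by rw [Finset.prod_const, Finset.card_univ, Fintype.card_fin]
    calc ∑ c ∈ Finset.Icc a b, (Zs δ L U Γ (2 ^ j * δ) c).indicator (fun _ => (1 : ℝ≥0∞)) x
        ≤ ∑ c ∈ Finset.Icc a b, 1 := by
          apply Finset.sum_le_sum
          intro c _
          exact indicator_le_self' (fun _ _ => zero_le_one) _
      _ = ((Finset.Icc a b).card : ℝ≥0∞) := by simp
      _ = ENNReal.ofReal ((Finset.Icc a b).card : ℝ) := by rw [ENNReal.ofReal_natCast]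
      _ ≤ _ := ENNReal.ofReal_le_ofReal hcard
  · push Not at hx
    have : ∀ c : Fin k → ℤ,
        (Zs δ L U Γ (2 ^ j * δ) c).indicator (fun _ => (1 : ℝ≥0∞)) x = 0 := fun c =>
      indicator_of_notMem (hx c) _
    simp [this]

theorem sum_loc {N : ℕ} {δ L : ℝ} (hδ : 0 < δ) (hL : 1 ≤ L) {U : Set (Fin k → ℝ)}
    {Γ : (Fin k → ℝ) → ℝ → E n} (h : Fol N L U Γ) (j : ℕ) {G : E n → ℝ≥0∞} (hG : Measurable G) :
    ∑' c : Fin k → ℤ, ∫⁻ x, (Zs δ L U Γ (2 ^ j * δ) c).indicator G x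
      ≤ ENNReal.ofReal ((34 * L ^ 2 * 2 ^ j) ^ k) * ∫⁻ x, G x := by
  rw [← lintegral_tsum (fun c => (hG.indicator (isOpen_Zs _ _ _ _ _ _).measurableSet).aemeasurable),
    ← lintegral_const_mul' _ _ ENNReal.ofReal_ne_top]
  apply lintegral_mono
  intro x
  have e : ∀ c : Fin k → ℤ, (Zs δ L U Γ (2 ^ j * δ) c).indicator G x
      = (Zs δ L U Γ (2 ^ j * δ) c).indicator (fun _ => (1 : ℝ≥0∞)) x * G x := by
    intro c
    by_cases hx : x ∈ Zs δ L U Γ (2 ^ j * δ) c
    · rw [indicator_of_mem hx, indicator_of_mem hx, one_mul]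
    · rw [indicator_of_notMem hx, indicator_of_notMem hx, zero_mul]
  simp_rw [e]
  rw [ENNReal.tsum_mul_right]
  gcongr
  exact overlap hδ hL h j x

/-- Comparison of averages over balls around nearby points. -/
theorem Phi_le_Phi' {δ : ℝ} (hδ : 0 < δ) (F : E n → ℝ≥0∞) {x x' : E n} (h : ‖x - x'‖ ≤ δ) :
    Phi (4 * δ) F x ≤ ENNReal.ofReal ((4 / 3) ^ n) * Phi (5 * δ) F x' := by
  have h1 := Av_mono_ball (r := 4 * δ) F h
  have e : 4 * δ + δ = 5 * δ := by ring
  rw [e] at h1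
  unfold Phi
  rw [← mul_assoc]
  have h3 : (vB n (4 * δ))⁻¹ ≤ ENNReal.ofReal ((4 / 3) ^ n) * (vB n (5 * δ))⁻¹ := by
    rw [vB_eq n (by positivity : (0:ℝ) ≤ 4 * δ), vB_eq n (by positivity : (0:ℝ) ≤ 5 * δ)]
    rw [ENNReal.mul_inv (Or.inl (by simp; positivity)) (Or.inl ENNReal.ofReal_ne_top),
      ENNReal.mul_inv (Or.inl (by simp; positivity)) (Or.inl ENNReal.ofReal_ne_top), ← mul_assoc]
    gcongr
    rw [← ENNReal.ofReal_inv_of_pos (by positivity), ← ENNReal.ofReal_inv_of_pos (by positivity),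
      ← ENNReal.ofReal_mul (by positivity)]
    apply ENNReal.ofReal_le_ofReal
    rw [← inv_pow, ← inv_pow, ← mul_pow]
    gcongr
    rw [mul_inv, mul_inv, ← mul_assoc]
    gcongr
    norm_num
  gcongr

/-- Localisation does not change the averages over the balls near a leaf. -/
theorem Phi_loc {δ L l : ℝ} (hδ : 0 < δ) (hl : δ ≤ l) {U : Set (Fin k → ℝ)}
    {Γ : (Fin k → ℝ) → ℝ → E n} (F : E n → ℝ≥0∞) {u : Fin k → ℝ} (hu : u ∈ U) (t : ℝ) {e : E n}
    (he : ‖e‖ = 1) {s : ℝ} (hs : |s| ≤ 2 * l) :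
    Phi (3 * δ) F (Γ u t + s • e)
      = Phi (3 * δ) ((Zs δ L U Γ l (idx δ L u)).indicator F) (Γ u t + s • e) := by
  unfold Phi Av
  congr 1
  apply setLIntegral_congr_fun isClosed_closedBall.measurableSet
  intro y hy
  have hyZ : y ∈ Zs δ L U Γ l (idx δ L u) := by
    refine ⟨u, hu, rfl, t, ?_⟩
    rw [mem_closedBall, dist_eq_norm] at hy
    have e1 : y - Γ u t = (y - (Γ u t + s • e)) + s • e := by abel
    rw [e1]
    refine (norm_add_le _ _).trans_lt ?_
    rw [norm_smul, he, mul_one, Real.norm_eq_abs]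
    linarith
  exact (indicator_of_mem hyZ F).symm

/-- The estimate for one shell. -/
theorem shell_sum (d : ℕ) (hd : 1 ≤ d) : ∃ C : ℝ≥0∞, C ≠ ∞ ∧
    ∀ (k N q : ℕ) (L : ℝ) (U : Set (Fin k → ℝ)) (Γ : (Fin k → ℝ) → ℝ → E (d + 1)),
    2 ≤ q → 1 ≤ L → Fol N L U Γ → ∀ δ : ℝ, 0 < δ → ∀ F : E (d + 1) → ℝ≥0∞, Measurable F →
    ∀ J' j : ℕ, 1 + ((d:ℝ) + 1) * N ≤ 2 ^ J' →
    ∃ M : E (d + 1) → ℝ≥0∞, Measurable M ∧
      (∀ e, ‖e‖ = 1 → ∀ u ∈ U, ∀ t,
        (∫⁻ s in shell (2 ^ j * δ), Phi (3 * δ) F (Γ u t + s • e) ^ ((q:ℝ) / 2)) ^ 2 ≤ M e) ∧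
      ∫⁻ x in closedBall (0 : E (d + 1)) 1, M (‖x‖⁻¹ • x)
        ≤ C * (((J':ℝ≥0∞) + j + 1) ^ 2 * (N + 1)) *
          (ENNReal.ofReal ((2 ^ j * δ) * ((2 ^ j * δ) ^ d)⁻¹) *
            ((ENNReal.ofReal ((4 / 3) ^ (d + 1))) ^ (2 * q) *
              (ENNReal.ofReal ((34 * L ^ 2 * 2 ^ j) ^ k) * ∫⁻ y, F y ^ q))) := by
  classical
  obtain ⟨C2, hC2, hS⟩ := sph_scale d hd
  refine ⟨C2, hC2, ?_⟩
  intro k N q L U Γ hq hL hΓ δ hδ F hF J' j hJ'
  set K : ℝ≥0∞ := ENNReal.ofReal ((4 / 3) ^ (d + 1)) with hK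
  have hKt : K ≠ ∞ := ENNReal.ofReal_ne_top
  set l : ℝ := 2 ^ j * δ with hl
  have hl0 : 0 < l := by positivity
  have hδl : δ ≤ l := by
    have : (1:ℝ) ≤ 2 ^ j := one_le_pow₀ (by norm_num)
    rw [hl]; nlinarith
  set Fc : (Fin k → ℤ) → E (d + 1) → ℝ≥0∞ := fun c => (Zs δ L U Γ l c).indicator F with hFc
  have hFcm : ∀ c, Measurable (Fc c) := fun c =>
    hF.indicator (isOpen_Zs _ _ _ _ _ _).measurableSet
  -- one curve for every cell
  have hex : ∀ c : Fin k → ℤ, ∃ M : E (d + 1) → ℝ≥0∞, Measurable M ∧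
      (∀ e, ‖e‖ = 1 → ∀ u ∈ U, idx δ L u = c → ∀ t,
        (∫⁻ s in shell l, Phi (3 * δ) F (Γ u t + s • e) ^ ((q:ℝ) / 2)) ^ 2 ≤ M e) ∧
      ∫⁻ x in closedBall (0 : E (d + 1)) 1, M (‖x‖⁻¹ • x)
        ≤ C2 * (((J':ℝ≥0∞) + j + 1) ^ 2 * (N + 1)) *
          (ENNReal.ofReal (l * (l ^ d)⁻¹) * (K ^ (2 * q) * ∫⁻ y, Fc c y ^ q)) := by
    intro c
    by_cases hc : ∃ u ∈ U, idx δ L u = c
    · obtain ⟨u₀, hu₀, hu₀c⟩ := hc
      set H1 : E (d + 1) → ℝ≥0∞ := fun x => (K * Phi (4 * δ) (Fc c) x) ^ ((q:ℝ) / 2) with hH1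
      set H2 : E (d + 1) → ℝ≥0∞ := fun x => (K ^ 2 * Phi (5 * δ) (Fc c) x) ^ ((q:ℝ) / 2) with hH2
      have hH1m : Measurable H1 := ((measurable_Phi _ (hFcm c)).const_mul _).pow_const _
      have hH2m : Measurable H2 := ((measurable_Phi _ (hFcm c)).const_mul _).pow_const _
      have h12 : ∀ x x', ‖x - x'‖ ≤ δ → H1 x ≤ H2 x' := by
        intro x x' hxx'
        apply ENNReal.rpow_le_rpow _ (by positivity)
        calc K * Phi (4 * δ) (Fc c) x ≤ K * (K * Phi (5 * δ) (Fc c) x') := by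
              gcongr
              exact Phi_le_Phi' hδ _ hxx'
          _ = _ := by ring
      have hH2X : ∫⁻ x, H2 x ^ 2 ≤ K ^ (2 * q) * ∫⁻ y, Fc c y ^ q := by
        have e1 : ∀ x, H2 x ^ 2 = K ^ (2 * q) * Phi (5 * δ) (Fc c) x ^ q := by
          intro x
          rw [hH2]
          simp only
          rw [sq_rpow_half, mul_pow, ← pow_mul]
        simp_rw [e1]
        rw [lintegral_const_mul' _ _ (ENNReal.pow_ne_top hKt)]
        exact mul_le_mul' le_rfl (lintegral_Phi_pow (by positivity) (hFcm c) hq)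
      obtain ⟨M, h1, h2, h3⟩ := hS N (Γ u₀) (hΓ.cont u₀ hu₀) (hΓ.order u₀ hu₀) H1 H2 hH1m hH2m δ hδ
        h12 l hl0 (J' + j) (by
          have e1 : 1 + ((d:ℝ) + 1) * N * l / (4 * δ)
              = 1 + ((d:ℝ) + 1) * N * 2 ^ j / 4 := by
            rw [hl]; field_simp
          rw [e1, pow_add]
          have h4 : (1:ℝ) ≤ 2 ^ j := one_le_pow₀ (by norm_num)
          have h5 : (0:ℝ) ≤ ((d:ℝ) + 1) * N := by positivity
          nlinarith [mul_le_mul_of_nonneg_right hJ' (by positivity : (0:ℝ) ≤ 2 ^ j),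
            mul_nonneg h5 (by positivity : (0:ℝ) ≤ 2 ^ j)])
      refine ⟨M, h1, ?_, ?_⟩
      · intro e he u hu huc t
        refine le_trans ?_ (h2 e he t)
        refine pow_le_pow_left' ?_ 2
        apply setLIntegral_mono' (measurableSet_shell _)
        intro s hs
        apply ENNReal.rpow_le_rpow _ (by positivity)
        rw [Phi_loc (L := L) hδ hδl F hu t he hs.2, huc]
        apply Phi_le_Phi hδ
        have e1 : Γ u t + s • e - (Γ u₀ t + s • e) = Γ u t - Γ u₀ t := by abel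
        rw [e1]
        exact (hΓ.lip u hu u₀ hu₀ t).trans (idx_close hδ hL (huc.trans hu₀c.symm))
      · refine h3.trans ?_
        push_cast
        have e2 : (J':ℝ≥0∞) + (j:ℝ≥0∞) + 1 = (J':ℝ≥0∞) + j + 1 := rfl
        gcongr
    · refine ⟨fun _ => 0, measurable_const, ?_, by simp⟩
      intro e he u hu huc
      exact absurd ⟨u, hu, huc⟩ hc
  choose M hMm hMle hMint using hex
  refine ⟨fun e => ∑' c, M c e, Measurable.tsum hMm, ?_, ?_⟩
  · intro e he u hu t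
    exact (hMle (idx δ L u) e he u hu rfl t).trans (ENNReal.le_tsum _)
  · have hmM : ∀ c, Measurable (fun x : E (d + 1) => M c (‖x‖⁻¹ • x)) := fun c =>
      (hMm c).comp measurable_dir
    rw [lintegral_tsum (fun c => (hmM c).aemeasurable)]
    have hFq : ∀ c y, Fc c y ^ q = (Zs δ L U Γ l c).indicator (fun y => F y ^ q) y := by
      intro c y
      by_cases hy : y ∈ Zs δ L U Γ l c
      · simp only [hFc, indicator_of_mem hy]
      · simp only [hFc, indicator_of_notMem hy]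
        exact zero_pow (by omega)
    calc ∑' c, ∫⁻ x in closedBall (0 : E (d + 1)) 1, M c (‖x‖⁻¹ • x)
        ≤ ∑' c, C2 * (((J':ℝ≥0∞) + j + 1) ^ 2 * (N + 1)) *
          (ENNReal.ofReal (l * (l ^ d)⁻¹) * (K ^ (2 * q) * ∫⁻ y, Fc c y ^ q)) :=
          ENNReal.tsum_le_tsum hMint
      _ = C2 * (((J':ℝ≥0∞) + j + 1) ^ 2 * (N + 1)) *
          (ENNReal.ofReal (l * (l ^ d)⁻¹) * (K ^ (2 * q) * ∑' c, ∫⁻ y, Fc c y ^ q)) := by
          rw [ENNReal.tsum_mul_left, ENNReal.tsum_mul_left, ENNReal.tsum_mul_left]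
      _ ≤ _ := by
          gcongr
          simp_rw [hFq]
          exact sum_loc hδ hL hΓ j (hF.pow_const q)

end Pool.Agent.U527.Srf
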